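import Mathlib

set_option autoImplicit false

/-! # The compact space of finite and infinite branches -/

namespace Pool.Agent.Hp6.KS

open Set TopologicalSpace Filter Topology PiNat

theorem tendsto_bool {Om : Type} {F : Filter Om} {f : Om → Bool} {b : Bool} :
    Tendsto f F (𝓝 b) ↔ ∀ᶠ o in F, f o = b := by
  rw [nhds_discrete, tendsto_pure]

/-- Finite and infinite branches, given by the indicator functions of the sets of their initial
segments (an initial segment is a list in reverse order). -/
def BR : Set (List ℕ → Bool) := {χ | χ [] = true ∧ (∀ j u, χ (j :: u) = true → χ u = true) ∧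
  ∀ j k u, χ (j :: u) = true → χ (k :: u) = true → j = k}

/-- the infinite branch -/
def ibr (α : ℕ → ℕ) : List ℕ → Bool := fun u => decide (res α u.length = u)

/-- the finite branch -/
def fbr (w : List ℕ) : List ℕ → Bool := fun u => decide (u <:+ w)

theorem ibr_iff (α : ℕ → ℕ) (u : List ℕ) : ibr α u = true ↔ res α u.length = u := by
  simp [ibr]

theorem ibr_cons (α : ℕ → ℕ) (j : ℕ) (u : List ℕ) :
    ibr α (j :: u) = true ↔ α u.length = j ∧ res α u.length = u := by
  rw [ibr_iff, List.length_cons, res_succ, List.cons_eq_cons]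

theorem fbr_iff (w u : List ℕ) : fbr w u = true ↔ u <:+ w := by
  simp [fbr]

theorem ibr_mem (α : ℕ → ℕ) : ibr α ∈ BR := by
  refine ⟨by simp [ibr], ?_, ?_⟩
  · intro j u h
    rw [ibr_cons] at h
    rw [ibr_iff]; exact h.2
  · intro j k u h h'
    rw [ibr_cons] at h h'
    exact h.1.symm.trans h'.1

theorem suffix_eq {u v w : List ℕ} (hu : u <:+ w) (hv : v <:+ w) (h : u.length = v.length) :
    u = v := by
  rw [List.suffix_iff_eq_drop] at hu hv
  rw [hu, hv, h]

theorem fbr_mem (w : List ℕ) : fbr w ∈ BR := by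
  refine ⟨by simp [fbr], ?_, ?_⟩
  · intro j u h
    rw [fbr_iff] at h ⊢
    exact (List.suffix_cons j u).trans h
  · intro j k u h h'
    rw [fbr_iff] at h h'
    have := suffix_eq h h' (by simp)
    exact (List.cons_eq_cons.1 this).1

theorem BR_len {χ : List ℕ → Bool} (hχ : χ ∈ BR) : ∀ (u v : List ℕ), u.length = v.length →
    χ u = true → χ v = true → u = v := by
  intro u
  induction u with
  | nil =>
    intro v h _ _
    exact (List.length_eq_zero_iff.1 h.symm).symm
  | cons j u ih =>
    intro v h hu hv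
    cases v with
    | nil => simp at h
    | cons k v =>
      have h1 := ih v (by simpa using h) (hχ.2.1 _ _ hu) (hχ.2.1 _ _ hv)
      subst h1
      rw [hχ.2.2 _ _ _ hu hv]

theorem BR_suffix {χ : List ℕ → Bool} (hχ : χ ∈ BR) {u v : List ℕ} (h : u <:+ v)
    (hv : χ v = true) : χ u = true := by
  obtain ⟨t, rfl⟩ := h
  induction t with
  | nil => exact hv
  | cons j t ih => exact ih (hχ.2.1 j _ hv)

/-- two initial segments of a branch are comparable -/
theorem BR_cmp {χ : List ℕ → Bool} (hχ : χ ∈ BR) {u v : List ℕ} (hu : χ u = true)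
    (hv : χ v = true) (h : u.length ≤ v.length) : u <:+ v := by
  have h1 : v.drop (v.length - u.length) <:+ v := List.drop_suffix _ _
  have h2 := BR_suffix hχ h1 hv
  have h3 : u = v.drop (v.length - u.length) := BR_len hχ _ _ (by
    rw [List.length_drop]; omega) hu h2
  rw [h3]; exact h1

theorem BR_cases {χ : List ℕ → Bool} (hχ : χ ∈ BR) : (∃ α, χ = ibr α) ∨ ∃ w, χ = fbr w := by
  classical
  by_cases h : ∃ w, χ w = true ∧ ∀ j, χ (j :: w) ≠ true
  · right
    obtain ⟨w, hw, hj⟩ := h
    refine ⟨w, funext fun v => ?_⟩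
    rw [Bool.eq_iff_iff, fbr_iff]
    constructor
    · intro hv
      by_cases hl : v.length ≤ w.length
      · exact BR_cmp hχ hv hw hl
      · exfalso
        have h1 : w <:+ v := BR_cmp hχ hw hv (by omega)
        obtain ⟨t, rfl⟩ := h1
        rcases List.eq_nil_or_concat t with rfl | ⟨t', j, rfl⟩
        · simp at hl
        · refine hj j (BR_suffix hχ ?_ hv)
          exact ⟨t', by simp⟩
    · intro hv
      exact BR_suffix hχ hv hw
  · left
    push Not at h
    choose! J hJ using h
    let G : ℕ → List ℕ := fun n => Nat.rec [] (fun _ u => J u :: u) n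
    have hG0 : G 0 = [] := rfl
    have hGs : ∀ n, G (n + 1) = J (G n) :: G n := fun n => rfl
    have hG : ∀ n, χ (G n) = true := by
      intro n
      induction n with
      | zero => exact hχ.1
      | succ n ih => rw [hGs]; exact hJ _ ih
    have hr : ∀ n, res (fun n => J (G n)) n = G n := by
      intro n
      induction n with
      | zero => rfl
      | succ n ih => rw [res_succ, ih, hGs]
    refine ⟨fun n => J (G n), funext fun v => ?_⟩
    rw [Bool.eq_iff_iff, ibr_iff, hr]
    constructor
    · intro hv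
      refine BR_len hχ _ _ ?_ (hG _) hv
      rw [← hr, res_length]
    · intro hv
      rw [← hv]; exact hG _

theorem ibr_inj {α β : ℕ → ℕ} (h : ibr α = ibr β) : α = β := by
  apply res_injective
  funext n
  have h1 : ibr α (res α n) = true := by rw [ibr_iff, res_length]
  rw [h, ibr_iff, res_length] at h1
  exact h1.symm

theorem ibr_ne_fbr (α : ℕ → ℕ) (w : List ℕ) : ibr α ≠ fbr w := by
  intro h
  have h1 : ibr α (res α (w.length + 1)) = true := by rw [ibr_iff, res_length]
  rw [h, fbr_iff] at h1
  have := h1.length_le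
  rw [res_length] at this
  omega

theorem fbr_inj {u v : List ℕ} (h : fbr u = fbr v) : u = v := by
  have h1 : fbr u u = true := (fbr_iff _ _).2 (List.suffix_refl u)
  have h2 : fbr v v = true := (fbr_iff _ _).2 (List.suffix_refl v)
  rw [h, fbr_iff] at h1
  rw [← h, fbr_iff] at h2
  exact suffix_eq h1 (List.suffix_refl v) (le_antisymm h1.length_le h2.length_le)

theorem BR_closed : IsClosed BR := by
  have hc : ∀ u : List ℕ, ∀ b, IsClosed {χ : List ℕ → Bool | χ u = b} := fun u b =>
    isClosed_eq (continuous_apply u) continuous_const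
  have ho : ∀ u : List ℕ, ∀ b, IsOpen {χ : List ℕ → Bool | χ u = b} := by
    intro u b
    have h : Continuous (fun χ : List ℕ → Bool => χ u) := continuous_apply u
    exact (isOpen_discrete {b}).preimage h
  refine (hc [] true).inter (IsClosed.inter ?_ ?_)
  · have e1 : {χ : List ℕ → Bool | ∀ j u, χ (j :: u) = true → χ u = true} =
        ⋂ (j : ℕ) (u : List ℕ), ({χ | χ (j :: u) = true}ᶜ ∪ {χ | χ u = true}) := by
      ext χ
      simp only [mem_iInter, mem_union, mem_compl_iff, Set.mem_ofPred_eq]
      exact forall_congr' fun j => forall_congr' fun u => imp_iff_not_or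
    have e2 : IsClosed {χ : List ℕ → Bool | ∀ j u, χ (j :: u) = true → χ u = true} := by
      rw [e1]
      exact isClosed_iInter fun j => isClosed_iInter fun u =>
        (ho _ _).isClosed_compl.union (hc _ _)
    exact e2
  · have e1 : {χ : List ℕ → Bool | ∀ j k u, χ (j :: u) = true → χ (k :: u) = true → j = k} =
        ⋂ (j : ℕ) (k : ℕ) (u : List ℕ), ({χ | χ (j :: u) = true}ᶜ ∪ ({χ | χ (k :: u) = true}ᶜ ∪
          {_χ | j = k})) := by
      ext χ
      simp only [mem_iInter, mem_union, mem_compl_iff, Set.mem_ofPred_eq]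
      refine forall_congr' fun j => forall_congr' fun k => forall_congr' fun u => ?_
      tauto
    have e2 : IsClosed {χ : List ℕ → Bool | ∀ j k u, χ (j :: u) = true →
        χ (k :: u) = true → j = k} := by
      rw [e1]
      exact isClosed_iInter fun j => isClosed_iInter fun k => isClosed_iInter fun u =>
        (ho _ _).isClosed_compl.union ((ho _ _).isClosed_compl.union isClosed_const)
    exact e2

theorem ibr_continuous : Continuous ibr := by
  refine continuous_pi fun u => ?_
  rw [continuous_discrete_rng]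
  intro b
  rw [isOpen_iff_eventually]
  intro α hα
  have h1 : cylinder α u.length ∈ 𝓝 α :=
    (isOpen_cylinder (fun _ => ℕ) α _).mem_nhds (self_mem_cylinder α _)
  filter_upwards [h1] with β hβ
  have h2 : res β u.length = res α u.length := by
    rw [res_eq_res]
    exact (mem_cylinder_iff.1 hβ)
  have h3 : ibr β u = ibr α u := by simp [ibr, h2]
  show ibr β u = b
  rw [h3]; exact hα

theorem tendsto_ibr {Om : Type} {F : Filter Om} {a : Om → ℕ → ℕ} {γ : ℕ → ℕ}
    (h : Tendsto (fun o => ibr (a o)) F (𝓝 (ibr γ))) : ∀ n, ∀ᶠ o in F, a o n = γ n := by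
  intro n
  rw [tendsto_pi_nhds] at h
  have h1 := tendsto_bool.1 (h (res γ (n + 1)))
  filter_upwards [h1] with o ho
  have h2 : ibr γ (res γ (n + 1)) = true := by rw [ibr_iff, res_length]
  rw [h2, res_succ, ibr_cons, res_length] at ho
  exact ho.1

theorem tendsto_fbr {Om : Type} {F : Filter Om} {a : Om → ℕ → ℕ} {w : List ℕ}
    (h : Tendsto (fun o => ibr (a o)) F (𝓝 (fbr w))) :
    (∀ᶠ o in F, res (a o) w.length = w) ∧ ∀ j, ∀ᶠ o in F, a o w.length ≠ j := by
  rw [tendsto_pi_nhds] at h
  have h1 : ∀ᶠ o in F, res (a o) w.length = w := by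
    filter_upwards [tendsto_bool.1 (h w)] with o ho
    have h2 : fbr w w = true := (fbr_iff _ _).2 (List.suffix_refl w)
    rw [h2, ibr_iff] at ho
    exact ho
  refine ⟨h1, fun j => ?_⟩
  filter_upwards [h1, tendsto_bool.1 (h (j :: w))] with o ho1 ho2 hj
  have h2 : fbr w (j :: w) = false := by
    rw [← Bool.not_eq_true, fbr_iff]
    intro hs
    have := hs.length_le
    simp at this
  have h3 : ibr (a o) (j :: w) = true := (ibr_cons _ _ _).2 ⟨hj, ho1⟩
  rw [ho2, h2] at h3
  exact absurd h3 (by simp)

/-- ultrafilters and closures of images -/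
theorem exists_ultra {Om Z : Type} [TopologicalSpace Z] (f : Om → Z) (A : Set Om) (y : Z)
    (h : y ∈ closure (f '' A)) : ∃ U : Ultrafilter Om, A ∈ U ∧ Tendsto f U (𝓝 y) := by
  have h1 : (comap f (𝓝 y) ⊓ 𝓟 A).NeBot := by
    rw [Filter.inf_principal_neBot_iff]
    rintro N ⟨M, hM, hMN⟩
    obtain ⟨z, hz1, o, ho, rfl⟩ := mem_closure_iff_nhds.1 h M hM
    exact ⟨o, hMN hz1, ho⟩
  refine ⟨Ultrafilter.of (comap f (𝓝 y) ⊓ 𝓟 A), ?_, ?_⟩
  · have h2 := Ultrafilter.of_le (comap f (𝓝 y) ⊓ 𝓟 A)
    exact h2 (mem_inf_of_right (mem_principal_self A))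
  · have h2 := Ultrafilter.of_le (comap f (𝓝 y) ⊓ 𝓟 A)
    exact (tendsto_comap.mono_left inf_le_left).mono_left h2

end Pool.Agent.Hp6.KS
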