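import Mathlib
import Pool.Agent.H139R3.FM
import Pool.Agent.H139R3.MF.Mark

set_option autoImplicit false

/-!
# Layers of an aperiodic countable Borel equivalence relation

A partition of the space into countably many Borel sets such that every point can be moved into any
given part by one of finitely many Borel automorphisms inside the relation.
-/

namespace Pool.Agent.Hp6.KS

open Set MeasureTheory

section Layers

variable {X : Type} [MeasurableSpace X] [StandardBorelSpace X]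

/-- one layer -/
theorem layer_step (s : ℕ → X → X) (hs : ∀ n, Measurable (s n)) (hinv : ∀ n x, s n (s n x) = x)
    (E : X → X → Prop) (hE : Equivalence E) (hsE : ∀ x y, E x y ↔ ∃ n, s n x = y)
    (A : Set X) (hA : MeasurableSet A) (hinf : ∀ x, {y | E x y ∧ y ∈ A}.Infinite) :
    ∃ (A' : Set X) (T R : X → X), MeasurableSet A' ∧ A' ⊆ A ∧
      (∀ x, {y | E x y ∧ y ∈ A'}.Infinite) ∧
      (Measurable T ∧ (∀ x, T (T x) = x) ∧ ∀ x, E x (T x)) ∧
      (Measurable R ∧ (∀ x, R (R x) = x) ∧ ∀ x, E x (R x)) ∧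
      (∀ x ∈ A, x ∈ A \ A' ∨ T x ∈ A \ A') ∧ (∀ x ∈ A, x ∈ A' ∨ T x ∈ A' ∨ R x ∈ A') := by
  classical
  let e : X → ℝ := embeddingReal X
  have he : Measurable e := measurable_embeddingReal X
  have hei : Function.Injective e := (measurableEmbedding_embeddingReal X).injective
  let M : ℕ → Set X := fun n => Nat.rec ∅
    (fun n M => M ∪ {x | x ∈ A ∧ x ∉ M ∧ s n x ∈ A ∧ s n x ∉ M ∧ s n x ≠ x}) n
  let D : ℕ → Set X := fun n => {x | x ∈ A ∧ x ∉ M n ∧ s n x ∈ A ∧ s n x ∉ M n ∧ s n x ≠ x}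
  have hM0 : M 0 = ∅ := rfl
  have hMs : ∀ n, M (n + 1) = M n ∪ D n := fun n => rfl
  have hMm : ∀ n, MeasurableSet (M n) := by
    intro n
    induction n with
    | zero => rw [hM0]; exact MeasurableSet.empty
    | succ n ih =>
      rw [hMs]
      refine ih.union ?_
      refine hA.inter (ih.compl.inter ((hs n hA).inter (((hs n) ih).compl.inter ?_)))
      exact (measurableSet_eq_fun (hs n) measurable_id).compl
  have hDm : ∀ n, MeasurableSet (D n) := by
    intro n
    refine hA.inter ((hMm n).compl.inter ((hs n hA).inter (((hs n) (hMm n)).compl.inter ?_)))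
    exact (measurableSet_eq_fun (hs n) measurable_id).compl
  have hMmono : ∀ {m n : ℕ}, m ≤ n → M m ⊆ M n := by
    intro m n h
    induction h with
    | refl => exact subset_rfl
    | step h ih => exact ih.trans (by rw [hMs]; exact subset_union_left)
  have hDM : ∀ {m n : ℕ}, m < n → D m ⊆ M n := by
    intro m n h
    refine Subset.trans ?_ (hMmono (Nat.succ_le_of_lt h))
    rw [hMs]
    exact subset_union_right
  have hdis : ∀ m n x, x ∈ D m → x ∈ D n → m = n := by
    intro m n x hm hn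
    rcases lt_trichotomy m n with h | h | h
    · exact absurd (hDM h hm) hn.2.1
    · exact h
    · exact absurd (hDM h hn) hm.2.1
  have hDs : ∀ n x, x ∈ D n → s n x ∈ D n := by
    intro n x hx
    refine ⟨hx.2.2.1, hx.2.2.2.1, ?_, ?_, ?_⟩
    · rw [hinv]; exact hx.1
    · rw [hinv]; exact hx.2.1
    · rw [hinv]; exact hx.2.2.2.2.symm
  have hME : ∀ n x, x ∈ M n → ∃ m < n, x ∈ D m := by
    intro n x hx
    induction n with
    | zero => exact absurd hx (by rw [hM0]; exact notMem_empty x)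
    | succ n ih =>
      rw [hMs] at hx
      rcases hx with hx | hx
      · obtain ⟨m, hm, h⟩ := ih hx
        exact ⟨m, hm.trans (Nat.lt_succ_self n), h⟩
      · exact ⟨n, Nat.lt_succ_self n, hx⟩
  -- the unmatched points
  let Lam : Set X := A \ ⋃ n, D n
  have hLm : MeasurableSet Lam := hA.diff (MeasurableSet.iUnion hDm)
  have hLu : ∀ x ∈ Lam, ∀ y ∈ Lam, E x y → x = y := by
    intro x hx y hy hxy
    by_contra hne
    obtain ⟨n, hn⟩ := (hsE x y).1 hxy
    apply hx.2
    refine mem_iUnion.2 ⟨n, hx.1, ?_, ?_, ?_, ?_⟩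
    · intro h
      obtain ⟨m, -, hm⟩ := hME n x h
      exact hx.2 (mem_iUnion.2 ⟨m, hm⟩)
    · rw [hn]; exact hy.1
    · rw [hn]
      intro h
      obtain ⟨m, -, hm⟩ := hME n y h
      exact hy.2 (mem_iUnion.2 ⟨m, hm⟩)
    · rw [hn]; exact fun h => hne h.symm
  let A' : Set X := ⋃ n, {y | y ∈ D n ∧ e (s n y) < e y}
  have hA'm : MeasurableSet A' := MeasurableSet.iUnion fun n =>
    (hDm n).inter (measurableSet_lt (he.comp (hs n)) he)
  have hA'A : A' ⊆ A := by
    intro y hy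
    obtain ⟨n, hn, -⟩ := mem_iUnion.1 hy
    exact hn.1
  -- the matching
  let P : Set (X × X) := ⋃ n, {p | p.1 ∈ D n ∧ p.2 = s n p.1 ∧ e p.1 < e p.2}
  have hPm : MeasurableSet P := by
    refine MeasurableSet.iUnion fun n => ?_
    refine (measurable_fst (hDm n)).inter ((measurableSet_eq_fun measurable_snd
      ((hs n).comp measurable_fst)).inter ?_)
    exact measurableSet_lt (he.comp measurable_fst) (he.comp measurable_snd)
  obtain ⟨T, hT1, hT2, hT3, hT4⟩ := Pool.Agent.H139R3.FM.exists_invol P hPm (by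
      intro x y y' h h'
      obtain ⟨n, hn, hy, -⟩ := mem_iUnion.1 h
      obtain ⟨m, hm, hy', -⟩ := mem_iUnion.1 h'
      simp only at hn hm hy hy'
      rw [hy, hy', hdis _ _ _ hn hm]) (by
      intro x x' y h h'
      obtain ⟨n, hn, hy, -⟩ := mem_iUnion.1 h
      obtain ⟨m, hm, hy', -⟩ := mem_iUnion.1 h'
      simp only at hn hm hy hy'
      have h1 := hDs _ _ hn
      have h2 := hDs _ _ hm
      rw [← hy] at h1
      rw [← hy'] at h2
      have h3 := hdis _ _ _ h1 h2
      rw [← hinv n x, ← hy, hy', h3, hinv]) (by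
      intro x y z h h'
      obtain ⟨n, hn, hy, hlt⟩ := mem_iUnion.1 h
      obtain ⟨m, hm, hy', hlt'⟩ := mem_iUnion.1 h'
      simp only at hn hm hy hy' hlt hlt'
      have h1 := hDs _ _ hn
      rw [← hy] at h1
      have h3 := hdis _ _ _ h1 hm
      rw [hy', ← h3, hy, hinv, ← hy] at hlt'
      exact lt_asymm hlt hlt')
  have hPE : ∀ x y, (x, y) ∈ P → E x y := by
    intro x y h
    obtain ⟨n, -, hy, -⟩ := mem_iUnion.1 h
    exact (hsE x y).2 ⟨n, hy.symm⟩
  have hTE : ∀ x, E x (T x) := by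
    intro x
    rcases hT4 x with h | h | h
    · rw [h]; exact hE.refl x
    · exact hPE _ _ h
    · exact hE.symm (hPE _ _ h)
  have hTup : ∀ n x, x ∈ D n → e x < e (s n x) → T x = s n x := by
    intro n x hx hlt
    exact hT3 _ _ (mem_iUnion.2 ⟨n, hx, rfl, hlt⟩)
  have hTdn : ∀ n x, x ∈ D n → e (s n x) < e x → T x = s n x := by
    intro n x hx hlt
    have h1 : T (s n x) = x := hT3 _ _ (mem_iUnion.2 ⟨n, hDs n x hx, (hinv n x).symm, hlt⟩)
    rw [← hT2 (s n x), h1]
  have hup' : ∀ n x, x ∈ D n → e x < e (s n x) → s n x ∈ A' := by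
    intro n x hx hlt
    refine mem_iUnion.2 ⟨n, hDs n x hx, ?_⟩
    rw [hinv]; exact hlt
  have hdn' : ∀ n x, x ∈ D n → e (s n x) < e x → s n x ∈ A \ A' := by
    intro n x hx hlt
    refine ⟨hx.2.2.1, ?_⟩
    intro h
    obtain ⟨m, hm, hlt'⟩ := mem_iUnion.1 h
    have h3 := hdis _ _ _ (hDs n x hx) hm
    rw [← h3, hinv] at hlt'
    exact lt_asymm hlt hlt'
  have hcase : ∀ n x, x ∈ D n → e x < e (s n x) ∨ e (s n x) < e x := by
    intro n x hx
    rcases lt_trichotomy (e x) (e (s n x)) with h | h | h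
    · exact Or.inl h
    · exact absurd (hei h).symm hx.2.2.2.2
    · exact Or.inr h
  -- infinitely many
  have hinf' : ∀ x, {y | E x y ∧ y ∈ A'}.Infinite := by
    intro x hfin
    apply hinf x
    have hL : {y | E x y ∧ y ∈ Lam}.Finite := by
      refine Set.Subsingleton.finite ?_
      rintro y ⟨hy1, hy2⟩ z ⟨hz1, hz2⟩
      exact hLu y hy2 z hz2 (hE.trans (hE.symm hy1) hz1)
    refine ((hfin.union (hfin.image T)).union hL).subset ?_
    rintro y ⟨hy1, hy2⟩
    by_cases hy : y ∈ ⋃ n, D n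
    · left
      obtain ⟨n, hn⟩ := mem_iUnion.1 hy
      rcases hcase n y hn with h | h
      · right
        refine ⟨s n y, ⟨hE.trans hy1 ((hsE _ _).2 ⟨n, rfl⟩), hup' n y hn h⟩, ?_⟩
        rw [← hTup n y hn h, hT2]
      · left
        exact ⟨hy1, mem_iUnion.2 ⟨n, hn, h⟩⟩
    · right
      exact ⟨hy1, hy2, hy⟩
  -- the second involution
  let PR : Set (X × X) := ⋃ n, {p | p.1 ∈ Lam ∧ p.2 = s n p.1 ∧ s n p.1 ∈ A' ∧
    ∀ m < n, s m p.1 ∉ A'}
  have hPRm : MeasurableSet PR := by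
    refine MeasurableSet.iUnion fun n => ?_
    refine (measurable_fst hLm).inter ((measurableSet_eq_fun measurable_snd
      ((hs n).comp measurable_fst)).inter ((((hs n).comp measurable_fst) hA'm).inter ?_))
    have e1 : {p : X × X | ∀ m < n, s m p.1 ∉ A'} =
        ⋂ m : ℕ, ⋂ _ : m < n, {p : X × X | s m p.1 ∈ A'}ᶜ := by
      ext p
      simp
    have e2 : MeasurableSet {p : X × X | ∀ m < n, s m p.1 ∉ A'} := by
      rw [e1]
      exact MeasurableSet.iInter fun m => MeasurableSet.iInter fun _ =>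
        (((hs m).comp measurable_fst) hA'm).compl
    exact e2
  have hPRE : ∀ x y, (x, y) ∈ PR → E x y := by
    intro x y h
    obtain ⟨n, -, hy, -⟩ := mem_iUnion.1 h
    exact (hsE x y).2 ⟨n, hy.symm⟩
  obtain ⟨R, hR1, hR2, hR3, hR4⟩ := Pool.Agent.H139R3.FM.exists_invol PR hPRm (by
      intro x y y' h h'
      obtain ⟨n, hn, hy, hn1, hn2⟩ := mem_iUnion.1 h
      obtain ⟨m, hm, hy', hm1, hm2⟩ := mem_iUnion.1 h'
      simp only at hn hm hy hy' hn1 hn2 hm1 hm2
      rcases lt_trichotomy m n with h3 | h3 | h3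
      · exact absurd hm1 (hn2 m h3)
      · rw [hy, hy', h3]
      · exact absurd hn1 (hm2 n h3)) (by
      intro x x' y h h'
      have h1 := hPRE _ _ h
      have h2 := hPRE _ _ h'
      obtain ⟨n, hn, -⟩ := mem_iUnion.1 h
      obtain ⟨m, hm, -⟩ := mem_iUnion.1 h'
      exact hLu x hn x' hm (hE.trans h1 (hE.symm h2))) (by
      intro x y z h h'
      obtain ⟨n, hn, hy, hn1, hn2⟩ := mem_iUnion.1 h
      obtain ⟨m, hm, -⟩ := mem_iUnion.1 h'
      simp only at hn hm hy hn1 hn2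
      rw [← hy] at hn1
      obtain ⟨k, hk, -⟩ := mem_iUnion.1 hn1
      exact hm.2 (mem_iUnion.2 ⟨k, hk⟩))
  have hRE : ∀ x, E x (R x) := by
    intro x
    rcases hR4 x with h | h | h
    · rw [h]; exact hE.refl x
    · exact hPRE _ _ h
    · exact hE.symm (hPRE _ _ h)
  have hRL : ∀ x ∈ Lam, R x ∈ A' := by
    intro x hx
    obtain ⟨y, hy1, hy2⟩ := (hinf' x).nonempty
    have hex : ∃ n, s n x ∈ A' := by
      obtain ⟨n, hn⟩ := (hsE _ _).1 hy1
      exact ⟨n, hn ▸ hy2⟩
    have h1 : (x, s (Nat.find hex) x) ∈ PR :=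
      mem_iUnion.2 ⟨Nat.find hex, hx, rfl, Nat.find_spec hex, fun m hm => Nat.find_min hex hm⟩
    rw [hR3 _ _ h1]
    exact Nat.find_spec hex
  refine ⟨A', T, R, hA'm, hA'A, hinf', ⟨hT1, hT2, hTE⟩, ⟨hR1, hR2, hRE⟩, ?_, ?_⟩
  · intro x hx
    by_cases h : x ∈ A'
    · right
      obtain ⟨n, hn, hlt⟩ := mem_iUnion.1 h
      rw [hTdn n x hn hlt]
      exact hdn' n x hn hlt
    · left
      exact ⟨hx, h⟩
  · intro x hx
    by_cases h : x ∈ ⋃ n, D n
    · obtain ⟨n, hn⟩ := mem_iUnion.1 h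
      rcases hcase n x hn with h1 | h1
      · right; left
        rw [hTup n x hn h1]
        exact hup' n x hn h1
      · left
        exact mem_iUnion.2 ⟨n, hn, h1⟩
    · right; right
      exact hRL x ⟨hx, h⟩

/-- the action of a word -/
def act {X : Type} (g : ℕ → X → X) (w : List ℕ) (x : X) : X := w.foldr g x

/-- Borel layers of an aperiodic countable Borel equivalence relation. -/
theorem exists_layers (s : ℕ → X → X) (hs : ∀ n, Measurable (s n))
    (hinv : ∀ n x, s n (s n x) = x)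
    (E : X → X → Prop) (hE : Equivalence E) (hsE : ∀ x y, E x y ↔ ∃ n, s n x = y)
    (hinf : ∀ x, {y | E x y}.Infinite) :
    ∃ (ρ : X → ℕ) (g : ℕ → X → X), Measurable ρ ∧ (∀ n, Measurable (g n)) ∧
      (∀ n x, g n (g n x) = x) ∧ (∀ x y, E x y ↔ ∃ n, g n x = y) ∧
      ∀ i, ∃ S : Set (List ℕ), S.Finite ∧ ∀ x, ∃ w ∈ S, ρ (act g w x) = i := by
  classical
  choose F1 F2 F3 hF using fun (A : {A : Set X // MeasurableSet A ∧
    ∀ x, {y | E x y ∧ y ∈ A}.Infinite}) => layer_step s hs hinv E hE hsE A.1 A.2.1 A.2.2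
  let L : ℕ → {A : Set X // MeasurableSet A ∧ ∀ x, {y | E x y ∧ y ∈ A}.Infinite} := fun n =>
    Nat.rec ⟨univ, MeasurableSet.univ, fun x => by simpa using hinf x⟩
      (fun _ A => ⟨F1 A, (hF A).1, (hF A).2.2.1⟩) n
  have hL0 : (L 0).1 = univ := rfl
  have hLs : ∀ n, (L (n + 1)).1 = F1 (L n) := fun n => rfl
  have hLsub : ∀ n, (L (n + 1)).1 ⊆ (L n).1 := fun n => by rw [hLs]; exact (hF (L n)).2.1
  have hLmono : ∀ {m n : ℕ}, m ≤ n → (L n).1 ⊆ (L m).1 := by
    intro m n h
    induction h with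
    | refl => exact subset_rfl
    | step h ih => exact (hLsub _).trans ih
  let T : ℕ → X → X := fun n => F2 (L n)
  let R : ℕ → X → X := fun n => F3 (L n)
  have hT : ∀ n, Measurable (T n) ∧ (∀ x, T n (T n x) = x) ∧ ∀ x, E x (T n x) :=
    fun n => (hF (L n)).2.2.2.1
  have hR : ∀ n, Measurable (R n) ∧ (∀ x, R n (R n x) = x) ∧ ∀ x, E x (R n x) :=
    fun n => (hF (L n)).2.2.2.2.1
  have h1 : ∀ n, ∀ x ∈ (L n).1, x ∈ (L n).1 \ (L (n + 1)).1 ∨ T n x ∈ (L n).1 \ (L (n + 1)).1 :=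
    fun n => (hF (L n)).2.2.2.2.2.1
  have h2 : ∀ n, ∀ x ∈ (L n).1, x ∈ (L (n + 1)).1 ∨ T n x ∈ (L (n + 1)).1 ∨
    R n x ∈ (L (n + 1)).1 := fun n => (hF (L n)).2.2.2.2.2.2
  let B : ℕ → Set X := fun n => (L n).1 \ (L (n + 1)).1
  have hBm : ∀ n, MeasurableSet (B n) := fun n => (L n).2.1.diff (L (n + 1)).2.1
  have hBdis : ∀ m n x, x ∈ B m → x ∈ B n → m = n := by
    intro m n x hm hn
    rcases lt_trichotomy m n with h | h | h
    · exact absurd (hLmono (Nat.succ_le_of_lt h) hn.1) hm.2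
    · exact h
    · exact absurd (hLmono (Nat.succ_le_of_lt h) hm.1) hn.2
  let ρ : X → ℕ := fun x => if h : ∃ n, x ∈ B n then Nat.find h else 0
  have hρ : ∀ n x, x ∈ B n → ρ x = n := by
    intro n x hx
    have h : ∃ n, x ∈ B n := ⟨n, hx⟩
    have e1 : ρ x = Nat.find h := dif_pos h
    rw [e1]
    exact hBdis _ _ _ (Nat.find_spec h) hx
  have hρm : Measurable ρ := by
    refine measurable_to_countable' fun k => ?_
    have e1 : ρ ⁻¹' {k} = B k ∪ ((⋃ n, B n)ᶜ ∩ {_x | k = 0}) := by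
      ext x
      simp only [mem_preimage, mem_singleton_iff, mem_union, mem_inter_iff, mem_compl_iff,
        mem_iUnion]
      constructor
      · intro h
        by_cases hx : ∃ n, x ∈ B n
        · left
          obtain ⟨n, hn⟩ := hx
          rw [hρ n x hn] at h
          rw [← h]; exact hn
        · right
          refine ⟨hx, ?_⟩
          have e1 : ρ x = 0 := dif_neg hx
          show k = 0
          rw [← h, e1]
      · rintro (h | ⟨h, hk⟩)
        · exact hρ k x h
        · have e1 : ρ x = 0 := dif_neg h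
          rw [e1]
          exact (show k = 0 from hk).symm
    rw [e1]
    exact (hBm k).union ((MeasurableSet.iUnion hBm).compl.inter (MeasurableSet.const _))
  let g : ℕ → X → X := fun n => if n % 3 = 0 then s (n / 3) else
    if n % 3 = 1 then T (n / 3) else R (n / 3)
  have g0 : ∀ n, g (3 * n) = s n := by
    intro n
    simp only [g]
    rw [if_pos (by omega), show 3 * n / 3 = n by omega]
  have g1 : ∀ n, g (3 * n + 1) = T n := by
    intro n
    simp only [g]
    rw [if_neg (by omega), if_pos (by omega), show (3 * n + 1) / 3 = n by omega]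
  have g2 : ∀ n, g (3 * n + 2) = R n := by
    intro n
    simp only [g]
    rw [if_neg (by omega), if_neg (by omega), show (3 * n + 2) / 3 = n by omega]
  have hg : ∀ n, Measurable (g n) ∧ (∀ x, g n (g n x) = x) ∧ ∀ x, E x (g n x) := by
    intro n
    simp only [g]
    split_ifs
    · exact ⟨hs _, hinv _, fun x => (hsE _ _).2 ⟨_, rfl⟩⟩
    · exact hT _
    · exact hR _
  have key : ∀ m, ∃ S : Set (List ℕ), S.Finite ∧ ∀ x, ∃ w ∈ S, act g w x ∈ (L m).1 := by
    intro m
    induction m with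
    | zero => exact ⟨{[]}, Set.finite_singleton _, fun x => ⟨[], rfl, by rw [hL0]; trivial⟩⟩
    | succ m ih =>
      obtain ⟨S, hS, h⟩ := ih
      refine ⟨S ∪ ((fun w => (3 * m + 1) :: w) '' S ∪ (fun w => (3 * m + 2) :: w) '' S),
        hS.union ((hS.image _).union (hS.image _)), fun x => ?_⟩
      obtain ⟨w, hw, hx⟩ := h x
      rcases h2 m _ hx with h3 | h3 | h3
      · exact ⟨w, Or.inl hw, h3⟩
      · refine ⟨_, Or.inr (Or.inl ⟨w, hw, rfl⟩), ?_⟩
        show g (3 * m + 1) (act g w x) ∈ _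
        rw [g1]; exact h3
      · refine ⟨_, Or.inr (Or.inr ⟨w, hw, rfl⟩), ?_⟩
        show g (3 * m + 2) (act g w x) ∈ _
        rw [g2]; exact h3
  refine ⟨ρ, g, hρm, fun n => (hg n).1, fun n => (hg n).2.1, ?_, ?_⟩
  · intro x y
    constructor
    · intro h
      obtain ⟨n, hn⟩ := (hsE x y).1 h
      exact ⟨3 * n, by rw [g0]; exact hn⟩
    · rintro ⟨n, rfl⟩
      exact (hg n).2.2 x
  · intro i
    obtain ⟨S, hS, h⟩ := key i
    refine ⟨S ∪ (fun w => (3 * i + 1) :: w) '' S, hS.union (hS.image _), fun x => ?_⟩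
    obtain ⟨w, hw, hx⟩ := h x
    rcases h1 i _ hx with h3 | h3
    · exact ⟨w, Or.inl hw, hρ i _ h3⟩
    · refine ⟨_, Or.inr ⟨w, hw, rfl⟩, hρ i _ ?_⟩
      show g (3 * i + 1) (act g w x) ∈ _
      rw [g1]; exact h3

end Layers

end Pool.Agent.Hp6.KS
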