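import Mathlib
import Pool.Agent.Hp6.KS.Branch

set_option autoImplicit false

/-! # The compact space: a tree of special fibres, and regular points -/

namespace Pool.Agent.Hp6.KS

open Set TopologicalSpace Filter Topology PiNat

/-- the ambient compact space -/
abbrev AMB : Type := (List ℕ → Bool) × (List ℕ → List ℕ → Bool)

section

variable (Zf : List ℕ → Set (List ℕ → Bool)) (z : List ℕ → ℕ → (List ℕ → Bool))

/-- the space -/
def YS : Set AMB := {y | y.1 ∈ BR ∧ ∀ u, (y.1 u = false → y.2 u = fbr []) ∧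
  (∀ j, y.1 (j :: u) = true → y.2 u = z u j) ∧ (y.1 u = true → y.2 u ∈ Zf u)}

theorem YS_closed (hZc : ∀ u, IsClosed (Zf u)) : IsClosed (YS Zf z) := by
  have himp : ∀ (u v : List ℕ) (b : Bool) (C : Set (List ℕ → Bool)), IsClosed C →
      IsClosed {y : AMB | y.1 u = b → y.2 v ∈ C} := by
    intro u v b C hC
    have e1 : {y : AMB | y.1 u = b → y.2 v ∈ C} = {y : AMB | y.1 u = !b} ∪
        (fun y : AMB => y.2 v) ⁻¹' C := by
      ext y
      simp only [mem_union, Set.mem_ofPred_eq, mem_preimage]
      cases y.1 u <;> cases b <;> simp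
    rw [e1]
    refine IsClosed.union ?_ ?_
    · exact isClosed_eq ((continuous_apply u).comp continuous_fst) continuous_const
    · exact hC.preimage ((continuous_apply v).comp continuous_snd)
  have e1 : YS Zf z = Prod.fst ⁻¹' BR ∩ ⋂ u, ({y : AMB | y.1 u = false → y.2 u ∈ ({fbr []} : Set _)} ∩
      ((⋂ j, {y : AMB | y.1 (j :: u) = true → y.2 u ∈ ({z u j} : Set _)}) ∩
        {y : AMB | y.1 u = true → y.2 u ∈ Zf u})) := by
    ext y
    simp only [YS, mem_inter_iff, mem_iInter, mem_preimage, Set.mem_ofPred_eq,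
      mem_singleton_iff]
  rw [e1]
  refine (BR_closed.preimage continuous_fst).inter (isClosed_iInter fun u => ?_)
  refine (himp u u false _ isClosed_singleton).inter (IsClosed.inter ?_ (himp u u true _ (hZc u)))
  exact isClosed_iInter fun j => himp (j :: u) u true _ isClosed_singleton

/-- the regular points -/
def reg (α : ℕ → ℕ) : AMB :=
  (ibr α, fun u => if res α u.length = u then z u (α u.length) else fbr [])

open Classical in
/-- the special points -/
noncomputable def sp (w : List ℕ) (b : List ℕ → Bool) : AMB :=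
  (fbr w, fun u => if h : ∃ j, (j :: u) <:+ w then z u h.choose else
    if u = w then b else fbr [])

variable {Zf z}

theorem sp_snd_self (w : List ℕ) (b : List ℕ → Bool) : (sp z w b).2 w = b := by
  classical
  show (if h : ∃ j, (j :: w) <:+ w then z w h.choose else if w = w then b else fbr []) = b
  rw [dif_neg, if_pos rfl]
  rintro ⟨j, hj⟩
  have := hj.length_le
  simp at this

theorem sp_snd_cons {w u : List ℕ} {j : ℕ} (b : List ℕ → Bool) (h : (j :: u) <:+ w) :
    (sp z w b).2 u = z u j := by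
  have h1 : ∃ j, (j :: u) <:+ w := ⟨j, h⟩
  unfold sp
  simp only
  rw [dif_pos h1]
  have h2 := suffix_eq h1.choose_spec h (by simp)
  rw [(List.cons_eq_cons.1 h2).1]

theorem sp_snd_none {w u : List ℕ} (b : List ℕ → Bool) (h : ¬ u <:+ w) :
    (sp z w b).2 u = fbr [] := by
  unfold sp
  simp only
  rw [dif_neg, if_neg]
  · rintro rfl
    exact h (List.suffix_refl _)
  · rintro ⟨j, hj⟩
    exact h ((List.suffix_cons j u).trans hj)

theorem suffix_cases {u w : List ℕ} (h : u <:+ w) : u = w ∨ ∃ j, (j :: u) <:+ w := by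
  obtain ⟨t, rfl⟩ := h
  rcases List.eq_nil_or_concat t with rfl | ⟨t', j, rfl⟩
  · left; simp
  · right; exact ⟨j, t', by simp⟩

theorem sp_inj {w w' : List ℕ} {b b' : List ℕ → Bool} (h : sp z w b = sp z w' b') :
    w = w' ∧ b = b' := by
  have h1 : w = w' := fbr_inj (congrArg Prod.fst h)
  subst h1
  refine ⟨rfl, ?_⟩
  have h2 := congrFun (congrArg Prod.snd h) w
  rwa [sp_snd_self, sp_snd_self] at h2

theorem reg_inj {α β : ℕ → ℕ} (h : reg z α = reg z β) : α = β :=
  ibr_inj (congrArg Prod.fst h)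

theorem reg_ne_sp (α : ℕ → ℕ) (w : List ℕ) (b : List ℕ → Bool) : reg z α ≠ sp z w b :=
  fun h => ibr_ne_fbr α w (congrArg Prod.fst h)

theorem reg_mem (hz : ∀ u j, z u j ∈ Zf u) (α : ℕ → ℕ) : reg z α ∈ YS Zf z := by
  refine ⟨ibr_mem α, fun u => ⟨?_, ?_, ?_⟩⟩
  · intro h
    have h1 : ¬ res α u.length = u := by
      intro h2
      have := (ibr_iff α u).2 h2
      rw [show (reg z α).1 u = ibr α u from rfl, this] at h
      exact absurd h (by simp)
    exact if_neg h1
  · intro j h
    have h1 := (ibr_cons α j u).1 h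
    show (if res α u.length = u then z u (α u.length) else fbr []) = _
    rw [if_pos h1.2, h1.1]
  · intro h
    have h1 := (ibr_iff α u).1 h
    show (if res α u.length = u then z u (α u.length) else fbr []) ∈ _
    rw [if_pos h1]
    exact hz _ _

theorem sp_mem (hz : ∀ u j, z u j ∈ Zf u) (w : List ℕ) (b : List ℕ → Bool) (hb : b ∈ Zf w) :
    sp z w b ∈ YS Zf z := by
  refine ⟨fbr_mem w, fun u => ⟨?_, ?_, ?_⟩⟩
  · intro h
    have h1 : ¬ u <:+ w := by
      intro h2
      have := (fbr_iff w u).2 h2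
      rw [show (sp z w b).1 u = fbr w u from rfl, this] at h
      exact absurd h (by simp)
    exact sp_snd_none b h1
  · intro j h
    exact sp_snd_cons b ((fbr_iff w _).1 h)
  · intro h
    rcases suffix_cases ((fbr_iff w u).1 h) with rfl | ⟨j, hj⟩
    · rw [sp_snd_self]; exact hb
    · rw [sp_snd_cons b hj]; exact hz _ _

theorem eq_reg {y : AMB} (hy : y ∈ YS Zf z) {α : ℕ → ℕ} (h : y.1 = ibr α) : y = reg z α := by
  refine Prod.ext h (funext fun u => ?_)
  by_cases hu : res α u.length = u
  · have h1 : y.1 (α u.length :: u) = true := by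
      rw [h, ibr_cons]; exact ⟨rfl, hu⟩
    rw [(hy.2 u).2.1 _ h1]
    exact (if_pos hu).symm
  · have h1 : y.1 u = false := by
      rw [h, ← Bool.not_eq_true, ibr_iff]; exact hu
    rw [(hy.2 u).1 h1]
    exact (if_neg hu).symm

theorem eq_sp {y : AMB} (hy : y ∈ YS Zf z) {w : List ℕ} (h : y.1 = fbr w) :
    y = sp z w (y.2 w) := by
  refine Prod.ext h (funext fun u => ?_)
  by_cases hu : u <:+ w
  · rcases suffix_cases hu with rfl | ⟨j, hj⟩
    · rw [sp_snd_self]
    · rw [sp_snd_cons _ hj]
      exact (hy.2 u).2.1 _ (by rw [h, fbr_iff]; exact hj)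
  · rw [sp_snd_none _ hu]
    exact (hy.2 u).1 (by rw [h, ← Bool.not_eq_true, fbr_iff]; exact hu)

theorem mem_Zf {y : AMB} (hy : y ∈ YS Zf z) {w : List ℕ} (h : y.1 = fbr w) : y.2 w ∈ Zf w :=
  (hy.2 w).2.2 (by rw [h, fbr_iff])

theorem reg_continuous : Continuous (reg z) := by
  refine ibr_continuous.prodMk (continuous_pi fun u => ?_)
  rw [continuous_iff_continuousAt]
  intro α
  have h1 : cylinder α (u.length + 1) ∈ 𝓝 α :=
    (isOpen_cylinder (fun _ => ℕ) α _).mem_nhds (self_mem_cylinder α _)
  refine (continuousAt_const (y := if res α u.length = u then z u (α u.length)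
    else fbr [])).congr ?_
  filter_upwards [h1] with β hβ
  rw [mem_cylinder_iff] at hβ
  have h2 : res α u.length = res β u.length := by
    rw [res_eq_res]
    exact fun m hm => (hβ m (by omega)).symm
  rw [h2, hβ u.length (by omega)]

theorem sp_continuous (w : List ℕ) : Continuous (sp z w) := by
  refine continuous_const.prodMk (continuous_pi fun u => ?_)
  by_cases h : ∃ j, (j :: u) <:+ w
  · simp only [dif_pos h]
    exact continuous_const
  · simp only [dif_neg h]
    by_cases h2 : u = w
    · simp only [if_pos h2]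
      exact continuous_id
    · simp only [if_neg h2]
      exact continuous_const

/-- convergence to a special point -/
theorem tendsto_sp {Om : Type} {F : Filter Om} {y : Om → AMB} (hy : ∀ o, y o ∈ YS Zf z)
    {w : List ℕ} {j : Om → ℕ} (h1 : ∀ o, (y o).1 (j o :: w) = true)
    (h2 : Tendsto j F cofinite) {b : List ℕ → Bool}
    (h3 : Tendsto (fun o => z w (j o)) F (𝓝 b)) : Tendsto y F (𝓝 (sp z w b)) := by
  have hw : ∀ o, (y o).1 w = true := fun o => (hy o).1.2.1 _ _ (h1 o)
  -- nodes off the path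
  have hoff : ∀ u, ¬ u <:+ w → ∀ᶠ o in F, (y o).1 u = false := by
    intro u hu
    have h4 : ∀ᶠ o in F, j o ≠ (u.drop (u.length - w.length - 1)).headD 0 :=
      h2 ((Set.finite_singleton _).compl_mem_cofinite)
    filter_upwards [h4] with o ho
    rw [← Bool.not_eq_true]
    intro hu'
    by_cases hl : u.length ≤ w.length
    · exact hu (BR_cmp (hy o).1 hu' (hw o) hl)
    · have h5 := BR_cmp (hy o).1 (h1 o) hu' (by simp; omega)
      rw [List.suffix_iff_eq_drop] at h5
      apply ho
      have h6 : u.length - (j o :: w).length = u.length - w.length - 1 := by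
        simp; omega
      rw [h6] at h5
      rw [← h5]
      rfl
  have hfst : Tendsto (fun o => (y o).1) F (𝓝 (fbr w)) := by
    rw [tendsto_pi_nhds]
    intro u
    rw [tendsto_bool]
    by_cases hu : u <:+ w
    · refine Eventually.of_forall fun o => ?_
      rw [BR_suffix (hy o).1 hu (hw o), (fbr_iff _ _).2 hu]
    · filter_upwards [hoff u hu] with o ho
      rw [ho, eq_comm, ← Bool.not_eq_true, fbr_iff]
      exact hu
  have hsnd : Tendsto (fun o => (y o).2) F (𝓝 (sp z w b).2) := by
    rw [tendsto_pi_nhds]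
    intro u
    by_cases hu : u <:+ w
    · rcases suffix_cases hu with rfl | ⟨k, hk⟩
      · rw [sp_snd_self]
        refine h3.congr fun o => ?_
        exact ((hy o).2 u |>.2.1 _ (h1 o)).symm
      · rw [sp_snd_cons b hk]
        refine tendsto_const_nhds.congr fun o => ?_
        exact (((hy o).2 u).2.1 k (BR_suffix (hy o).1 hk (hw o))).symm
    · rw [sp_snd_none b hu]
      refine tendsto_const_nhds.congr' ?_
      filter_upwards [hoff u hu] with o ho
      exact (((hy o).2 u).1 ho).symm
  exact hfst.prodMk_nhds hsnd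

/-- convergence to a regular point -/
theorem tendsto_reg {y : ℕ → AMB} (hy : ∀ o, y o ∈ YS Zf z)
    {α : ℕ → ℕ} (h1 : ∀ n, (y n).1 (res α n) = true) : Tendsto y atTop (𝓝 (reg z α)) := by
  have h0 : ∀ n m, m ≤ n → (y n).1 (res α m) = true := by
    intro n m h
    refine BR_suffix (hy n).1 ?_ (h1 n)
    induction h with
    | refl => exact List.suffix_refl _
    | step h ih => rw [res_succ]; exact ih.trans (List.suffix_cons _ _)
  have hfst : Tendsto (fun n => (y n).1) atTop (𝓝 (ibr α)) := by
    rw [tendsto_pi_nhds]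
    intro u
    rw [tendsto_bool]
    filter_upwards [eventually_ge_atTop u.length] with n hn
    have h2 := h0 n u.length hn
    rw [Bool.eq_iff_iff, ibr_iff]
    constructor
    · intro hu
      exact BR_len (hy n).1 _ _ (by rw [res_length]) h2 hu
    · intro hu
      rw [← hu]; exact h2
  have hsnd : Tendsto (fun n => (y n).2) atTop (𝓝 (reg z α).2) := by
    rw [tendsto_pi_nhds]
    intro u
    refine tendsto_const_nhds.congr' ?_
    filter_upwards [eventually_ge_atTop (u.length + 1)] with n hn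
    have h2 := h0 n (u.length + 1) hn
    rw [res_succ] at h2
    by_cases hu : res α u.length = u
    · have e1 : (reg z α).2 u = z u (α u.length) := if_pos hu
      rw [e1]
      rw [hu] at h2
      exact (((hy n).2 u).2.1 _ h2).symm
    · have e1 : (reg z α).2 u = fbr [] := if_neg hu
      rw [e1]
      have h3 : (y n).1 u = false := by
        rw [← Bool.not_eq_true]
        intro h4
        exact hu (BR_len (hy n).1 _ _ (by rw [res_length]) (h0 n u.length (by omega)) h4)
      exact (((hy n).2 u).1 h3).symm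
  exact hfst.prodMk_nhds hsnd

/-- the sets of the points through a node form a pseudobase -/
theorem pibase (hz3 : ∀ (w : List ℕ) (b : List ℕ → Bool), b ∈ Zf w → ∀ N ∈ 𝓝 b,
      {j | z w j ∈ N}.Infinite) {y : AMB} (hy : y ∈ YS Zf z) (O : Set AMB) (hO : O ∈ 𝓝 y) :
    ∃ u : List ℕ, ∀ y' ∈ YS Zf z, y'.1 u = true → y' ∈ O := by
  by_contra hcon
  push Not at hcon
  choose Y hY1 hY2 hY3 using hcon
  rcases BR_cases hy.1 with ⟨α, hα⟩ | ⟨w, hw⟩
  · have h1 : Tendsto (fun n => Y (res α n)) atTop (𝓝 (reg z α)) :=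
      tendsto_reg (fun n => hY1 _) (fun n => hY2 _)
    rw [← eq_reg hy hα] at h1
    obtain ⟨n, hn⟩ := (h1.eventually hO).exists
    exact hY3 _ hn
  · have hb := mem_Zf hy hw
    let F : Filter ℕ := cofinite ⊓ comap (z w) (𝓝 (y.2 w))
    have hF : F.NeBot := by
      rw [Filter.inf_neBot_iff]
      intro s hs s' hs'
      obtain ⟨N, hN, hNs⟩ := hs'
      have h1 : (sᶜ).Finite := hs
      obtain ⟨j, hj1, hj2⟩ := ((hz3 w _ hb N hN).sdiff h1).nonempty
      exact ⟨j, not_not.1 hj2, hNs hj1⟩
    have h1 : Tendsto (fun j => Y (j :: w)) F (𝓝 (sp z w (y.2 w))) := by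
      refine tendsto_sp (j := fun j => j) (fun j => hY1 _) (fun j => hY2 _) ?_ ?_
      · exact inf_le_left
      · exact tendsto_comap.mono_left inf_le_right
    rw [← eq_sp hy hw] at h1
    obtain ⟨n, hn⟩ := (h1.eventually hO).exists
    exact hY3 _ hn

/-- limits of regular points -/
theorem lim_reg {Om : Type} {U : Filter Om} [U.NeBot] {a : Om → ℕ → ℕ} {y : AMB}
    (hy : y ∈ YS Zf z) (h : Tendsto (fun o => reg z (a o)) U (𝓝 y)) :
    (∃ γ, y = reg z γ ∧ ∀ n, ∀ᶠ o in U, a o n = γ n) ∨
    ∃ w, y = sp z w (y.2 w) ∧ y.2 w ∈ Zf w ∧ (∀ᶠ o in U, res (a o) w.length = w) ∧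
      (∀ j, ∀ᶠ o in U, a o w.length ≠ j) ∧
      Tendsto (fun o => z w (a o w.length)) U (𝓝 (y.2 w)) := by
  have h1 : Tendsto (fun o => ibr (a o)) U (𝓝 y.1) := (continuous_fst.tendsto y).comp h
  rcases BR_cases hy.1 with ⟨γ, hγ⟩ | ⟨w, hw⟩
  · left
    exact ⟨γ, eq_reg hy hγ, tendsto_ibr (hγ ▸ h1)⟩
  · right
    have h2 := tendsto_fbr (hw ▸ h1)
    refine ⟨w, eq_sp hy hw, mem_Zf hy hw, h2.1, h2.2, ?_⟩
    have h3 : Tendsto (fun o => (reg z (a o)).2 w) U (𝓝 (y.2 w)) :=
      ((continuous_apply w).comp continuous_snd).continuousAt.tendsto.comp h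
    refine h3.congr' ?_
    filter_upwards [h2.1] with o ho
    exact if_pos ho

end

end Pool.Agent.Hp6.KS
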