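import Mathlib
import Pool.Agent.Hp6.KS.Space
import Pool.Agent.Hp6.KS.Layers

set_option autoImplicit false

/-! # The realization on the compact space -/

namespace Pool.Agent.Hp6.KS

open Set TopologicalSpace Filter Topology PiNat

/-- nodes and numbers -/
def nod : List ℕ ≃ ℕ := Denumerable.eqv (List ℕ)

/-- eventual equality of sequences, and one class -/
def TW {Q : Type} : (ℕ → ℕ) ⊕ Q → (ℕ → ℕ) ⊕ Q → Prop
  | .inl α, .inl β => ∃ N, ∀ n, N ≤ n → α n = β n
  | .inr _, .inr _ => True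
  | _, _ => False

section

variable {X : Type}

theorem act_nil (g : ℕ → X → X) (x : X) : act g [] x = x := rfl

theorem act_append (g : ℕ → X → X) (w w' : List ℕ) (x : X) :
    act g (w ++ w') x = act g w (act g w' x) := by
  unfold act
  rw [List.foldr_append]

theorem act_reverse (g : ℕ → X → X) (hgi : ∀ n x, g n (g n x) = x) (w : List ℕ) (x : X) :
    act g w.reverse (act g w x) = x := by
  induction w with
  | nil => rfl
  | cons n w ih =>
    rw [List.reverse_cons, act_append]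
    show act g w.reverse (g n (g n (act g w x))) = x
    rw [hgi, ih]

theorem act_continuous [TopologicalSpace X] (g : ℕ → X → X) (hg : ∀ n, Continuous (g n))
    (w : List ℕ) : Continuous (act g w) := by
  induction w with
  | nil => exact continuous_id
  | cons n w ih => exact (hg n).comp ih

theorem act_E {E : X → X → Prop} (hE : Equivalence E) (g : ℕ → X → X)
    (hgE : ∀ x y, E x y ↔ ∃ n, g n x = y) (w : List ℕ) (x : X) : E x (act g w x) := by
  induction w with
  | nil => exact hE.refl x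
  | cons n w ih => exact hE.trans ih ((hgE _ _).2 ⟨n, rfl⟩)

theorem exists_prefix (u : List ℕ) (α : ℕ → ℕ) :
    ∃ β, res β u.length = u ∧ ∀ n, u.length ≤ n → β n = α n := by
  induction u with
  | nil => exact ⟨α, rfl, fun _ _ => rfl⟩
  | cons j u ih =>
    obtain ⟨β, h1, h2⟩ := ih
    refine ⟨Function.update β u.length j, ?_, ?_⟩
    · rw [List.length_cons, res_succ, Function.update_self, List.cons_eq_cons]
      refine ⟨rfl, ?_⟩
      have h3 : res (Function.update β u.length j) u.length = res β u.length := by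
        rw [res_eq_res]
        intro m hm
        rw [Function.update_of_ne (by omega)]
      exact h3.trans h1
    · intro n hn
      rw [List.length_cons] at hn
      rw [Function.update_of_ne (by omega)]
      exact h2 n (by omega)

end

section

variable {X : Type} [TopologicalSpace X] [PolishSpace X] [Nonempty X]
  (c : X → ℕ → ℕ) (ρ : X → ℕ) (g : ℕ → X → X) (Wd : ℕ → X → List ℕ)

/-- the code of a point -/
def ee (x : X) : List ℕ → Bool := ibr (c x)

/-- the retraction to a layer -/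
def ph (i : ℕ) (x : X) : X := if ρ x = i then x else act g (Wd i x) x

/-- the point attached to a label -/
noncomputable def dd (j : ℕ) : Option X :=
  match (Nat.unpair j).1 with
  | 0 => none
  | k + 1 => some (denseSeq X k)

/-- the attaching points -/
noncomputable def zz (u : List ℕ) (j : ℕ) : List ℕ → Bool :=
  match dd (X := X) j with
  | none => fbr []
  | some x => ee c (ph ρ g Wd (nod u) x)

/-- the fibres -/
def ZF (u : List ℕ) : Set (List ℕ → Bool) := closure (ee c '' {x | ρ x = nod u}) ∪ {fbr []}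

/-- the extra points -/
def QQ : Type := {q : List ℕ × List ℕ // fbr q.2 ∈ ZF c ρ q.1}

instance : Countable (QQ c ρ) := inferInstanceAs (Countable {q : List ℕ × List ℕ // _})

/-- the bijection, as a map to the ambient space -/
noncomputable def f0 : X ⊕ ((ℕ → ℕ) ⊕ QQ c ρ) → AMB
  | .inl x => sp (zz c ρ g Wd) (nod.symm (ρ x)) (ee c x)
  | .inr (.inl α) => reg (zz c ρ g Wd) α
  | .inr (.inr q) => sp (zz c ρ g Wd) q.1.1 (fbr q.1.2)

variable {c ρ g Wd}

omit [PolishSpace X] [Nonempty X] in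
theorem ee_continuous (hc : Continuous c) : Continuous (ee c) := ibr_continuous.comp hc

omit [PolishSpace X] [Nonempty X] in
theorem ee_mem_ZF {x : X} {u : List ℕ} (h : ρ x = nod u) : ee c x ∈ ZF c ρ u :=
  Or.inl (subset_closure ⟨x, h, rfl⟩)

omit [PolishSpace X] [Nonempty X] in
theorem nil_mem_ZF (u : List ℕ) : fbr [] ∈ ZF c ρ u := Or.inr rfl

omit [PolishSpace X] [Nonempty X] in
theorem ZF_closed (u : List ℕ) : IsClosed (ZF c ρ u) := isClosed_closure.union isClosed_singleton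

omit [PolishSpace X] [Nonempty X] in
theorem ZF_BR (u : List ℕ) : ZF c ρ u ⊆ BR := by
  rintro b (hb | hb)
  · refine closure_minimal ?_ BR_closed hb
    rintro _ ⟨x, -, rfl⟩
    exact ibr_mem _
  · rw [mem_singleton_iff] at hb
    rw [hb]; exact fbr_mem _

omit [TopologicalSpace X] [PolishSpace X] [Nonempty X] in
theorem ph_rho (hW : ∀ i x, ρ (act g (Wd i x) x) = i) (i : ℕ) (x : X) :
    ρ (ph ρ g Wd i x) = i := by
  unfold ph
  split_ifs with h
  · exact h
  · exact hW i x

omit [TopologicalSpace X] [PolishSpace X] [Nonempty X] in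
theorem ph_word (hS : ∀ i, ∃ S : Set (List ℕ), S.Finite ∧ ∀ x, Wd i x ∈ S) (i : ℕ) :
    ∃ S : Set (List ℕ), S.Finite ∧ ∀ x, ∃ w ∈ S, ph ρ g Wd i x = act g w x := by
  obtain ⟨S, hS1, hS2⟩ := hS i
  refine ⟨S ∪ {[]}, hS1.union (Set.finite_singleton _), fun x => ?_⟩
  unfold ph
  split_ifs with h
  · exact ⟨[], Or.inr rfl, rfl⟩
  · exact ⟨_, Or.inl (hS2 x), rfl⟩

theorem zz_mem (hW : ∀ i x, ρ (act g (Wd i x) x) = i) (u : List ℕ) (j : ℕ) :
    zz c ρ g Wd u j ∈ ZF c ρ u := by
  unfold zz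
  split
  · exact nil_mem_ZF u
  · exact ee_mem_ZF (ph_rho hW _ _)

theorem zz_dense (hc : Continuous c) (hρ : Continuous ρ) (w : List ℕ)
    (b : List ℕ → Bool) (hb : b ∈ ZF c ρ w) (N : Set (List ℕ → Bool)) (hN : N ∈ 𝓝 b) :
    {j | zz c ρ g Wd w j ∈ N}.Infinite := by
  rcases hb with hb | hb
  · obtain ⟨M, hMN, hM, hbM⟩ := mem_nhds_iff.1 hN
    obtain ⟨_, hz, x, hx, rfl⟩ := mem_closure_iff.1 hb M hM hbM
    have ho : IsOpen ({x | ρ x = nod w} ∩ ee c ⁻¹' M) :=
      ((isOpen_discrete {nod w}).preimage hρ).inter (hM.preimage (ee_continuous hc))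
    obtain ⟨_, hy, k, rfl⟩ := (denseRange_denseSeq X).inter_open_nonempty _ ho ⟨x, hx, hz⟩
    refine Set.infinite_of_injective_forall_mem (f := fun m => Nat.pair (k + 1) m) ?_ ?_
    · intro m m' h
      exact (Nat.pair_eq_pair.1 h).2
    · intro m
      apply hMN
      have e1 : zz c ρ g Wd w (Nat.pair (k + 1) m) =
          ee c (ph ρ g Wd (nod w) (denseSeq X k)) := by
        have : dd (X := X) (Nat.pair (k + 1) m) = some (denseSeq X k) := by
          unfold dd
          rw [Nat.unpair_pair]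
        unfold zz
        rw [this]
      rw [e1]
      unfold ph
      rw [if_pos (show ρ (denseSeq X k) = nod w from hy.1)]
      exact hy.2
  · rw [mem_singleton_iff] at hb
    refine Set.infinite_of_injective_forall_mem (f := fun m => Nat.pair 0 m) ?_ ?_
    · intro m m' h
      exact (Nat.pair_eq_pair.1 h).2
    · intro m
      have e1 : zz c ρ g Wd w (Nat.pair 0 m) = fbr [] := by
        have : dd (X := X) (Nat.pair 0 m) = none := by
          unfold dd
          rw [Nat.unpair_pair]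
        unfold zz
        rw [this]
      show zz c ρ g Wd w (Nat.pair 0 m) ∈ N
      rw [e1, ← hb]
      exact mem_of_mem_nhds hN

omit [PolishSpace X] [Nonempty X] in
/-- convergence in the space from the convergence of codes -/
theorem conv_of_ibr (hc : Continuous c)
    (hcu : ∀ U : Ultrafilter X, (∀ n, ∃ a, {x | c x n = a} ∈ U) → ∃ x, (U : Filter X) ≤ 𝓝 x)
    {Om : Type} {U : Ultrafilter Om} {x : Om → X} {β : ℕ → ℕ}
    (h : Tendsto (fun o => ee c (x o)) U (𝓝 (ibr β))) :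
    ∃ p, Tendsto x U (𝓝 p) ∧ ee c p = ibr β := by
  have h1 := tendsto_ibr h
  obtain ⟨p, hp⟩ := hcu (U.map x) (fun n => ⟨β n, h1 n⟩)
  have hp' : Tendsto x U (𝓝 p) := hp
  refine ⟨p, hp', ?_⟩
  exact tendsto_nhds_unique (((ee_continuous hc).tendsto p).comp hp') h

omit [PolishSpace X] [Nonempty X] in
theorem rho_lim (hρ : Continuous ρ) {Om : Type} {U : Ultrafilter Om} {x : Om → X} {p : X} {i : ℕ}
    (h : Tendsto x U (𝓝 p)) (hi : ∀ᶠ o in (U : Filter Om), ρ (x o) = i) : ρ p = i := by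
  have h1 : Tendsto (fun o => ρ (x o)) U (𝓝 (ρ p)) := (hρ.tendsto p).comp h
  rw [nhds_discrete, tendsto_pure] at h1
  obtain ⟨o, ho1, ho2⟩ := (h1.and hi).exists
  rw [← ho1, ho2]

omit [PolishSpace X] [Nonempty X] in
theorem pair_lim (hc : Continuous c)
    (hcu : ∀ U : Ultrafilter X, (∀ n, ∃ a, {x | c x n = a} ∈ U) → ∃ x, (U : Filter X) ≤ 𝓝 x)
    {E : X → X → Prop}
    {Om : Type} {U : Ultrafilter Om} {x x' : Om → X} {h h' : X → X} (hh : Continuous h)
    (hh' : Continuous h') (h1 : ∀ᶠ o in (U : Filter Om), x' o = h (x o))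
    (h2 : ∀ᶠ o in (U : Filter Om), x o = h' (x' o)) (hE : ∀ p, E p (h p)) {b b' : List ℕ → Bool}
    (hb : Tendsto (fun o => ee c (x o)) U (𝓝 b)) (hb' : Tendsto (fun o => ee c (x' o)) U (𝓝 b')) :
    (∃ p p', ee c p = b ∧ ee c p' = b' ∧ E p p' ∧ Tendsto x U (𝓝 p) ∧ Tendsto x' U (𝓝 p')) ∨
      ∃ v v', b = fbr v ∧ b' = fbr v' := by
  have m1 : b ∈ BR := BR_closed.mem_of_tendsto hb (Eventually.of_forall fun o => ibr_mem _)
  have m2 : b' ∈ BR := BR_closed.mem_of_tendsto hb' (Eventually.of_forall fun o => ibr_mem _)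
  rcases BR_cases m1 with ⟨β, rfl⟩ | ⟨v, rfl⟩
  · left
    obtain ⟨p, hp, hpe⟩ := conv_of_ibr hc hcu hb
    have h3 : Tendsto x' U (𝓝 (h p)) := by
      refine ((hh.tendsto p).comp hp).congr' ?_
      filter_upwards [h1] with o ho
      exact ho.symm
    refine ⟨p, h p, hpe, ?_, hE p, hp, h3⟩
    exact tendsto_nhds_unique (((ee_continuous hc).tendsto _).comp h3) hb'
  · right
    rcases BR_cases m2 with ⟨β, rfl⟩ | ⟨v', rfl⟩
    · exfalso
      obtain ⟨p, hp, hpe⟩ := conv_of_ibr hc hcu hb'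
      have h3 : Tendsto x U (𝓝 (h' p)) := by
        refine ((hh'.tendsto p).comp hp).congr' ?_
        filter_upwards [h2] with o ho
        exact ho.symm
      have h4 := tendsto_nhds_unique (((ee_continuous hc).tendsto _).comp h3) hb
      exact ibr_ne_fbr _ _ h4
    · exact ⟨v, v', rfl, rfl⟩

theorem f0_mem (hW : ∀ i x, ρ (act g (Wd i x) x) = i) (a : X ⊕ ((ℕ → ℕ) ⊕ QQ c ρ)) :
    f0 c ρ g Wd a ∈ YS (ZF c ρ) (zz c ρ g Wd) := by
  rcases a with x | α | q
  · exact sp_mem (zz_mem hW) _ _ (ee_mem_ZF (by simp))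
  · exact reg_mem (zz_mem hW) _
  · exact sp_mem (zz_mem hW) _ _ q.2

theorem f0_inj (hci : Function.Injective c) : Function.Injective (f0 c ρ g Wd) := by
  rintro (x | α | q) (x' | α' | q') h
  · have h1 := (sp_inj h).2
    rw [hci (ibr_inj h1)]
  · exact absurd h.symm (reg_ne_sp _ _ _)
  · exact absurd (sp_inj h).2 (ibr_ne_fbr _ _)
  · exact absurd h (reg_ne_sp _ _ _)
  · rw [reg_inj h]
  · exact absurd h (reg_ne_sp _ _ _)
  · exact absurd (sp_inj h).2.symm (ibr_ne_fbr _ _)
  · exact absurd h.symm (reg_ne_sp _ _ _)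
  · have h1 := sp_inj h
    have h2 : q = q' := Subtype.ext (Prod.ext h1.1 (fbr_inj h1.2))
    rw [h2]

theorem eq_inl {y : AMB} (hy : y ∈ YS (ZF c ρ) (zz c ρ g Wd)) {w : List ℕ} (h : y.1 = fbr w)
    {p : X} (hp : ee c p = y.2 w) (hρp : ρ p = nod w) : f0 c ρ g Wd (.inl p) = y := by
  show sp (zz c ρ g Wd) (nod.symm (ρ p)) (ee c p) = y
  rw [hρp, Equiv.symm_apply_apply, hp]
  exact (eq_sp hy h).symm

theorem eq_inr {y : AMB} (hy : y ∈ YS (ZF c ρ) (zz c ρ g Wd)) {w : List ℕ} (h : y.1 = fbr w)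
    {v : List ℕ} (hv : y.2 w = fbr v) : ∃ q, f0 c ρ g Wd (.inr (.inr q)) = y := by
  refine ⟨⟨(w, v), ?_⟩, ?_⟩
  · show fbr v ∈ ZF c ρ w
    rw [← hv]
    exact mem_Zf hy h
  · show sp (zz c ρ g Wd) w (fbr v) = y
    rw [← hv]
    exact (eq_sp hy h).symm

theorem f0_surj (hc : Continuous c) (hρ : Continuous ρ)
    (hcu : ∀ U : Ultrafilter X, (∀ n, ∃ a, {x | c x n = a} ∈ U) → ∃ x, (U : Filter X) ≤ 𝓝 x)
    {y : AMB} (hy : y ∈ YS (ZF c ρ) (zz c ρ g Wd)) : ∃ a, f0 c ρ g Wd a = y := by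
  rcases BR_cases hy.1 with ⟨α, hα⟩ | ⟨w, hw⟩
  · exact ⟨.inr (.inl α), (eq_reg hy hα).symm⟩
  · have hb := mem_Zf hy hw
    rcases BR_cases (ZF_BR _ hb) with ⟨β, hβ⟩ | ⟨v, hv⟩
    · rcases hb with hb | hb
      · obtain ⟨U, hU1, hU2⟩ := exists_ultra _ _ _ hb
        rw [hβ] at hU2
        obtain ⟨p, hp, hpe⟩ := conv_of_ibr hc hcu hU2
        have h1 : ρ p = nod w := rho_lim hρ hp hU1
        exact ⟨.inl p, eq_inl hy hw (hpe.trans hβ.symm) h1⟩
      · rw [mem_singleton_iff, hβ] at hb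
        exact absurd hb (ibr_ne_fbr _ _)
    · obtain ⟨q, hq⟩ := eq_inr hy hw hv
      exact ⟨_, hq⟩

theorem f0_cont_inl (hc : Continuous c) (hρ : Continuous ρ) :
    Continuous (fun x : X => f0 c ρ g Wd (.inl x)) := by
  rw [continuous_iff_continuousAt]
  intro x
  have h1 : Continuous (fun x' : X => sp (zz c ρ g Wd) (nod.symm (ρ x)) (ee c x')) :=
    (sp_continuous _).comp (ee_continuous hc)
  refine h1.continuousAt.congr ?_
  have h2 : ∀ᶠ x' in 𝓝 x, ρ x' = ρ x := by
    have := (hρ.tendsto x)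
    rwa [nhds_discrete ℕ, tendsto_pure] at this
  filter_upwards [h2] with x' hx'
  show sp (zz c ρ g Wd) (nod.symm (ρ x)) (ee c x') = sp (zz c ρ g Wd) (nod.symm (ρ x')) (ee c x')
  rw [hx']

theorem f0_cont_inr : Continuous (fun α : ℕ → ℕ => f0 c ρ g Wd (.inr (.inl α))) :=
  reg_continuous

end

end Pool.Agent.Hp6.KS
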