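import Mathlib
import Pool.Agent.Hp6.KS.Main

set_option autoImplicit false

/-! # The relation on the compact space is `K_σ` and minimal -/

namespace Pool.Agent.Hp6.KS

open Set TopologicalSpace Filter Topology PiNat

section

variable {X : Type} [TopologicalSpace X] [PolishSpace X] [Nonempty X]
  {c : X → ℕ → ℕ} {ρ : X → ℕ} {g : ℕ → X → X} {Wd : ℕ → X → List ℕ} {E : X → X → Prop}

/-- the relation on the disjoint union -/
abbrev RL (c : X → ℕ → ℕ) (ρ : X → ℕ) (E : X → X → Prop) :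
    X ⊕ ((ℕ → ℕ) ⊕ QQ c ρ) → X ⊕ ((ℕ → ℕ) ⊕ QQ c ρ) → Prop := Sum.LiftRel E TW

/-- the relation on the ambient space -/
def RR (c : X → ℕ → ℕ) (ρ : X → ℕ) (g : ℕ → X → X) (Wd : ℕ → X → List ℕ) (E : X → X → Prop)
    (y y' : AMB) : Prop := ∃ a b, f0 c ρ g Wd a = y ∧ f0 c ρ g Wd b = y' ∧ RL c ρ E a b

/-- the limit of pairs over two nodes -/
theorem special_pair (hc : Continuous c) (hρ : Continuous ρ)
    (hcu : ∀ U : Ultrafilter X, (∀ n, ∃ a, {x | c x n = a} ∈ U) → ∃ x, (U : Filter X) ≤ 𝓝 x)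
    {Om : Type} {U : Ultrafilter Om} {x x' : Om → X} {h h' : X → X} (hh : Continuous h)
    (hh' : Continuous h') (h1 : ∀ᶠ o in (U : Filter Om), x' o = h (x o))
    (h2 : ∀ᶠ o in (U : Filter Om), x o = h' (x' o)) (hE : ∀ p, E p (h p))
    {y y' : AMB} (hy : y ∈ YS (ZF c ρ) (zz c ρ g Wd)) (hy' : y' ∈ YS (ZF c ρ) (zz c ρ g Wd))
    {w w' : List ℕ} (hw : y.1 = fbr w) (hw' : y'.1 = fbr w')
    (hb : Tendsto (fun o => ee c (x o)) U (𝓝 (y.2 w)))
    (hb' : Tendsto (fun o => ee c (x' o)) U (𝓝 (y'.2 w')))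
    (hx : ∀ᶠ o in (U : Filter Om), ρ (x o) = nod w)
    (hx' : ∀ᶠ o in (U : Filter Om), ρ (x' o) = nod w') : RR c ρ g Wd E y y' := by
  rcases pair_lim hc hcu hh hh' h1 h2 hE hb hb' with ⟨p, p', hp, hp', hpp, hl, hl'⟩ | ⟨v, v', hv, hv'⟩
  · refine ⟨.inl p, .inl p', eq_inl hy hw hp (rho_lim hρ hl hx),
      eq_inl hy' hw' hp' (rho_lim hρ hl' hx'), ?_⟩
    exact Sum.liftRel_inl_inl.2 hpp
  · obtain ⟨q, hq⟩ := eq_inr hy hw hv
    obtain ⟨q', hq'⟩ := eq_inr hy' hw' hv'
    exact ⟨_, _, hq, hq', Sum.liftRel_inr_inr.2 trivial⟩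

/-- limits of pairs for the relation `E` -/
theorem lim_E (hc : Continuous c) (hρ : Continuous ρ)
    (hcu : ∀ U : Ultrafilter X, (∀ n, ∃ a, {x | c x n = a} ∈ U) → ∃ x, (U : Filter X) ≤ 𝓝 x)
    (hg : ∀ n, Continuous (g n)) (hgi : ∀ n x, g n (g n x) = x)
    (hgE : ∀ x y, E x y ↔ ∃ n, g n x = y) (n i k : ℕ)
    {U : Ultrafilter X} (hU : {x | ρ x = i ∧ ρ (g n x) = k} ∈ U) {y y' : AMB}
    (hy : y ∈ YS (ZF c ρ) (zz c ρ g Wd)) (hy' : y' ∈ YS (ZF c ρ) (zz c ρ g Wd))
    (h : Tendsto (fun x => f0 c ρ g Wd (.inl x)) U (𝓝 y))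
    (h' : Tendsto (fun x => f0 c ρ g Wd (.inl (g n x))) U (𝓝 y')) : RR c ρ g Wd E y y' := by
  have hU' : ∀ᶠ x in (U : Filter X), ρ x = i ∧ ρ (g n x) = k := hU
  have key : ∀ (r : X → X) (j : ℕ) (y : AMB), (∀ᶠ x in (U : Filter X), ρ (r x) = j) →
      Tendsto (fun x => f0 c ρ g Wd (.inl (r x))) U (𝓝 y) →
      y.1 = fbr (nod.symm j) ∧ Tendsto (fun x => ee c (r x)) U (𝓝 (y.2 (nod.symm j))) := by
    intro r j y hr hy
    constructor
    · have h1 : Tendsto (fun x => (f0 c ρ g Wd (.inl (r x))).1) U (𝓝 y.1) :=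
        (continuous_fst.tendsto y).comp hy
      refine tendsto_nhds_unique h1 (tendsto_const_nhds.congr' ?_)
      filter_upwards [hr] with x hx
      show fbr (nod.symm j) = fbr (nod.symm (ρ (r x)))
      rw [hx]
    · have h1 : Tendsto (fun x => (f0 c ρ g Wd (.inl (r x))).2 (nod.symm j)) U
          (𝓝 (y.2 (nod.symm j))) :=
        ((continuous_apply (nod.symm j)).comp continuous_snd).continuousAt.tendsto.comp hy
      refine h1.congr' ?_
      filter_upwards [hr] with x hx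
      show (sp (zz c ρ g Wd) (nod.symm (ρ (r x))) (ee c (r x))).2 (nod.symm j) = _
      rw [hx, sp_snd_self]
  obtain ⟨h1, h2⟩ := key (fun x => x) i y (hU'.mono fun x hx => hx.1) h
  obtain ⟨h3, h4⟩ := key (g n) k y' (hU'.mono fun x hx => hx.2) h'
  refine special_pair hc hρ hcu (U := U) (hg n) (hg n) (x := fun x => x) (x' := g n)
    (Eventually.of_forall fun x => rfl) (Eventually.of_forall fun x => (hgi n x).symm)
    (fun p => (hgE _ _).2 ⟨n, rfl⟩) hy hy' h1 h3 h2 h4 ?_ ?_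
  · exact hU'.mono fun x hx => by rw [hx.1, Equiv.apply_symm_apply]
  · exact hU'.mono fun x hx => by rw [hx.2, Equiv.apply_symm_apply]

/-- the set of pairs of sequences which agree after given prefixes -/
def AP (u v : List ℕ) : Set ((ℕ → ℕ) × (ℕ → ℕ)) := {p | u.length = v.length ∧
  res p.1 u.length = u ∧ res p.2 v.length = v ∧ ∀ n, u.length ≤ n → p.1 n = p.2 n}

/-- limits of pairs for eventual equality -/
theorem lim_T (hc : Continuous c) (hρ : Continuous ρ)
    (hcu : ∀ U : Ultrafilter X, (∀ n, ∃ a, {x | c x n = a} ∈ U) → ∃ x, (U : Filter X) ≤ 𝓝 x)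
    (hg : ∀ n, Continuous (g n)) (hgi : ∀ n x, g n (g n x) = x) (hE : Equivalence E)
    (hgE : ∀ x y, E x y ↔ ∃ n, g n x = y) (hW : ∀ i x, ρ (act g (Wd i x) x) = i)
    (hS : ∀ i, ∃ S : Set (List ℕ), S.Finite ∧ ∀ x, Wd i x ∈ S) (u v : List ℕ)
    {U : Ultrafilter ((ℕ → ℕ) × (ℕ → ℕ))} (hU : AP u v ∈ U) {y y' : AMB}
    (hy : y ∈ YS (ZF c ρ) (zz c ρ g Wd)) (hy' : y' ∈ YS (ZF c ρ) (zz c ρ g Wd))
    (h : Tendsto (fun p : (ℕ → ℕ) × (ℕ → ℕ) => f0 c ρ g Wd (.inr (.inl p.1))) U (𝓝 y))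
    (h' : Tendsto (fun p : (ℕ → ℕ) × (ℕ → ℕ) => f0 c ρ g Wd (.inr (.inl p.2))) U (𝓝 y')) :
    RR c ρ g Wd E y y' := by
  have hU' : ∀ᶠ p in (U : Filter ((ℕ → ℕ) × (ℕ → ℕ))), p ∈ AP u v := hU
  obtain ⟨p0, hp0⟩ := hU'.exists
  have hlen : u.length = v.length := hp0.1
  -- the prefixes are constant
  have hc1 : ∀ m < u.length, ∀ᶠ p : (ℕ → ℕ) × (ℕ → ℕ) in (U : Filter ((ℕ → ℕ) × (ℕ → ℕ))), p.1 m = p0.1 m := by
    intro m hm
    filter_upwards [hU'] with p hp
    exact (res_eq_res.1 (hp.2.1.trans hp0.2.1.symm)) hm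
  have hc2 : ∀ m < u.length, ∀ᶠ p : (ℕ → ℕ) × (ℕ → ℕ) in (U : Filter ((ℕ → ℕ) × (ℕ → ℕ))), p.2 m = p0.2 m := by
    intro m hm
    filter_upwards [hU'] with p hp
    exact (res_eq_res.1 (hp.2.2.1.trans hp0.2.2.1.symm)) (by omega)
  have heq : ∀ m, u.length ≤ m → ∀ᶠ p : (ℕ → ℕ) × (ℕ → ℕ) in (U : Filter ((ℕ → ℕ) × (ℕ → ℕ))), p.1 m = p.2 m := by
    intro m hm
    filter_upwards [hU'] with p hp
    exact hp.2.2.2 m hm
  rcases lim_reg (a := fun p : (ℕ → ℕ) × (ℕ → ℕ) => p.1) hy h with ⟨γ, hγ, hγ'⟩ | ⟨w, hw, hwZ, hw1, hw2, hw3⟩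
  · -- the first limit is regular
    rcases lim_reg (a := fun p : (ℕ → ℕ) × (ℕ → ℕ) => p.2) hy' h' with ⟨δ, hδ, hδ'⟩ | ⟨w, hw, hwZ, hw1, hw2, hw3⟩
    · refine ⟨.inr (.inl γ), .inr (.inl δ), hγ.symm, hδ.symm, ?_⟩
      refine Sum.liftRel_inr_inr.2 ⟨u.length, fun n hn => ?_⟩
      obtain ⟨p, hp1, hp2, hp3⟩ := ((hγ' n).and ((hδ' n).and (heq n hn))).exists
      rw [← hp1, ← hp2, hp3]
    · exfalso
      by_cases hm : w.length < u.length
      · obtain ⟨p, hp1, hp2⟩ := ((hc2 _ hm).and (hw2 (p0.2 w.length))).exists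
        exact hp2 hp1
      · obtain ⟨p, hp1, hp2, hp3⟩ := ((heq _ (not_lt.1 hm)).and
          ((hγ' w.length).and (hw2 (γ w.length)))).exists
        exact hp3 (hp1.symm.trans hp2)
  · have hwl : u.length ≤ w.length := by
      by_contra hm
      obtain ⟨p, hp1, hp2⟩ := ((hc1 _ (not_le.1 hm)).and (hw2 (p0.1 w.length))).exists
      exact hp2 hp1
    rcases lim_reg (a := fun p : (ℕ → ℕ) × (ℕ → ℕ) => p.2) hy' h' with ⟨δ, hδ, hδ'⟩ | ⟨w', hw', hwZ', hw1', hw2', hw3'⟩
    · exfalso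
      obtain ⟨p, hp1, hp2, hp3⟩ := ((heq _ hwl).and
          ((hδ' w.length).and (hw2 (δ w.length)))).exists
      exact hp3 (hp1.trans hp2)
    · have hwl' : u.length ≤ w'.length := by
        by_contra hm
        obtain ⟨p, hp1, hp2⟩ := ((hc2 _ (not_le.1 hm)).and (hw2' (p0.2 w'.length))).exists
        exact hp2 hp1
      -- the nodes have the same length
      obtain ⟨p1, hp1⟩ := (hw1.and hw1').exists
      have hl : w.length = w'.length := by
        rcases lt_trichotomy w.length w'.length with hl | hl | hl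
        · exfalso
          obtain ⟨p, hq1, hq2, hq3⟩ := ((heq _ hwl).and (hw1'.and (hw2 (p1.2 w.length)))).exists
          have hq4 := (res_eq_res.1 (hq2.trans hp1.2.symm)) hl
          exact hq3 (hq1.trans hq4)
        · exact hl
        · exfalso
          obtain ⟨p, hq1, hq2, hq3⟩ := ((heq _ hwl').and (hw1.and (hw2' (p1.1 w'.length)))).exists
          have hq4 := (res_eq_res.1 (hq2.trans hp1.1.symm)) hl
          exact hq3 (hq1.symm.trans hq4)
      have hy1 : y.1 = fbr w := congrArg Prod.fst hw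
      have hy1' : y'.1 = fbr w' := congrArg Prod.fst hw'
      have hw3'' : Tendsto (fun p : (ℕ → ℕ) × (ℕ → ℕ) => zz c ρ g Wd w' (p.1 w.length)) U
          (𝓝 (y'.2 w')) := by
        refine hw3'.congr' ?_
        filter_upwards [heq _ hwl] with p hp
        rw [← hl, hp]
      by_cases hd : {p : (ℕ → ℕ) × (ℕ → ℕ) | dd (X := X) (p.1 w.length) = none} ∈ U
      · have hd' : ∀ᶠ p : (ℕ → ℕ) × (ℕ → ℕ) in (U : Filter ((ℕ → ℕ) × (ℕ → ℕ))),
          dd (X := X) (p.1 w.length) = none := hd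
        have h1 : y.2 w = fbr [] := by
          refine tendsto_nhds_unique hw3 (tendsto_const_nhds.congr' ?_)
          filter_upwards [hd'] with p hp
          unfold zz
          rw [hp]
        have h2 : y'.2 w' = fbr [] := by
          refine tendsto_nhds_unique hw3'' (tendsto_const_nhds.congr' ?_)
          filter_upwards [hd'] with p hp
          unfold zz
          rw [hp]
        obtain ⟨q, hq⟩ := eq_inr hy hy1 h1
        obtain ⟨q', hq'⟩ := eq_inr hy' hy1' h2
        exact ⟨_, _, hq, hq', Sum.liftRel_inr_inr.2 trivial⟩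
      · rw [← Ultrafilter.compl_mem_iff_notMem] at hd
        have hd' : ∀ᶠ p : (ℕ → ℕ) × (ℕ → ℕ) in (U : Filter ((ℕ → ℕ) × (ℕ → ℕ))),
          ¬ dd (X := X) (p.1 w.length) = none := hd
        obtain ⟨x0⟩ := (inferInstance : Nonempty X)
        let x : (ℕ → ℕ) × (ℕ → ℕ) → X := fun p => (dd (X := X) (p.1 w.length)).getD x0
        have hx : ∀ᶠ p in (U : Filter ((ℕ → ℕ) × (ℕ → ℕ))), dd (X := X) (p.1 w.length) = some (x p) := by
          filter_upwards [hd'] with p hp
          obtain ⟨x', hx'⟩ := Option.ne_none_iff_exists'.1 hp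
          simp only [x, hx', Option.getD_some]
        obtain ⟨S1, hS1, hS1'⟩ := ph_word (ρ := ρ) (g := g) (Wd := Wd) hS (nod w)
        obtain ⟨S2, hS2, hS2'⟩ := ph_word (ρ := ρ) (g := g) (Wd := Wd) hS (nod w')
        obtain ⟨w1, -, hw1a⟩ := (Ultrafilter.eventually_exists_mem_iff (f := U) hS1
          (P := fun s p => ph ρ g Wd (nod w) (x p) = act g s (x p))).1
            (Eventually.of_forall fun p => hS1' (x p))
        obtain ⟨w2, -, hw2a⟩ := (Ultrafilter.eventually_exists_mem_iff (f := U) hS2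
          (P := fun s p => ph ρ g Wd (nod w') (x p) = act g s (x p))).1
            (Eventually.of_forall fun p => hS2' (x p))
        refine special_pair hc hρ hcu (U := U) (h := fun q => act g w2 (act g w1.reverse q))
          (h' := fun q => act g w1 (act g w2.reverse q))
          ((act_continuous g hg _).comp (act_continuous g hg _))
          ((act_continuous g hg _).comp (act_continuous g hg _))
          (x := fun p => act g w1 (x p)) (x' := fun p => act g w2 (x p))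
          ?_ ?_ ?_ hy hy' hy1 hy1' ?_ ?_ ?_ ?_
        · refine Eventually.of_forall fun p => ?_
          rw [act_reverse g hgi]
        · refine Eventually.of_forall fun p => ?_
          rw [act_reverse g hgi]
        · intro p
          exact hE.trans (act_E hE g hgE _ _) (act_E hE g hgE _ _)
        · refine hw3.congr' ?_
          filter_upwards [hx, hw1a] with p hp hp'
          rw [← hp']
          unfold zz
          rw [hp]
        · refine hw3''.congr' ?_
          filter_upwards [hx, hw2a] with p hp hp'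
          rw [← hp']
          unfold zz
          rw [hp]
        · filter_upwards [hw1a] with p hp
          rw [← hp]
          exact ph_rho hW _ _
        · filter_upwards [hw2a] with p hp
          rw [← hp]
          exact ph_rho hW _ _

/-- a code of the ambient space in the Cantor space -/
noncomputable def cod (y : AMB) (n : ℕ) : Bool :=
  match (Denumerable.eqv (List ℕ ⊕ (List ℕ × List ℕ))).symm n with
  | .inl u => y.1 u
  | .inr p => y.2 p.1 p.2

theorem cod_continuous : Continuous cod := by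
  refine continuous_pi fun n => ?_
  unfold cod
  rcases (Denumerable.eqv (List ℕ ⊕ (List ℕ × List ℕ))).symm n with u | p
  · exact (continuous_apply u).comp continuous_fst
  · have h1 : Continuous fun y : List ℕ → List ℕ → Bool => y p.1 p.2 :=
      (continuous_apply p.2).comp (continuous_apply p.1)
    exact h1.comp continuous_snd

theorem cod_inj : Function.Injective cod := by
  intro y y' h
  refine Prod.ext (funext fun u => ?_) (funext fun u => funext fun v => ?_)
  · have h1 := congrFun h (Denumerable.eqv (List ℕ ⊕ (List ℕ × List ℕ)) (.inl u))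
    unfold cod at h1
    rwa [Equiv.symm_apply_apply] at h1
  · have h1 := congrFun h (Denumerable.eqv (List ℕ ⊕ (List ℕ × List ℕ)) (.inr (u, v)))
    unfold cod at h1
    rwa [Equiv.symm_apply_apply] at h1

/-- The realization. -/
theorem main (hc : Continuous c) (hci : Function.Injective c) (hρ : Continuous ρ)
    (hcu : ∀ U : Ultrafilter X, (∀ n, ∃ a, {x | c x n = a} ∈ U) → ∃ x, (U : Filter X) ≤ 𝓝 x)
    (hg : ∀ n, Continuous (g n)) (hgi : ∀ n x, g n (g n x) = x) (hE : Equivalence E)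
    (hgE : ∀ x y, E x y ↔ ∃ n, g n x = y) (hW : ∀ i x, ρ (act g (Wd i x) x) = i)
    (hS : ∀ i, ∃ S : Set (List ℕ), S.Finite ∧ ∀ x, Wd i x ∈ S) :
    ∃ (Q : Type) (_ : Countable Q) (i : ℕ → Q) (_ : Function.Injective i)
      (Y : Type) (_ : TopologicalSpace Y) (_ : CompactSpace Y) (_ : PolishSpace Y)
      (f : X ⊕ ((ℕ → ℕ) ⊕ Q) → Y) (e : Y → ℕ → Bool), Continuous e ∧ Function.Injective e ∧
      Function.Bijective f ∧ (Continuous fun x => f (.inl x)) ∧
      (Continuous fun α => f (.inr (.inl α))) ∧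
      (∃ K : ℕ → Set (Y × Y), (∀ n, IsCompact (K n)) ∧
        {p : Y × Y | ∃ a b, f a = p.1 ∧ f b = p.2 ∧ Sum.LiftRel E TW a b} = ⋃ n, K n) ∧
      ∀ a, Dense {y | ∃ b, f b = y ∧ Sum.LiftRel E TW a b} := by
  have hcl : IsClosed (YS (ZF c ρ) (zz c ρ g Wd)) := YS_closed _ _ (fun u => ZF_closed u)
  have hcomp : CompactSpace (YS (ZF c ρ) (zz c ρ g Wd)) :=
    isCompact_iff_compactSpace.1 hcl.isCompact
  have hamb : PolishSpace AMB :=
    @instPolishSpaceOfSeparableSpaceOfIsCompletelyMetrizableSpace _ _ inferInstance inferInstance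
  have hpol : PolishSpace (YS (ZF c ρ) (zz c ρ g Wd)) := hcl.polishSpace
  let f : X ⊕ ((ℕ → ℕ) ⊕ QQ c ρ) → YS (ZF c ρ) (zz c ρ g Wd) :=
    fun a => ⟨f0 c ρ g Wd a, f0_mem hW a⟩
  have hRR : ∀ y y' : YS (ZF c ρ) (zz c ρ g Wd), RR c ρ g Wd E y.1 y'.1 →
      ∃ a b, f a = y ∧ f b = y' ∧ Sum.LiftRel E TW a b := by
    rintro y y' ⟨a, b, ha, hb, hab⟩
    exact ⟨a, b, Subtype.ext ha, Subtype.ext hb, hab⟩
  refine ⟨QQ c ρ, inferInstance, fun n => ⟨(nod.symm n, []), nil_mem_ZF _⟩, ?_,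
    YS (ZF c ρ) (zz c ρ g Wd), inferInstance, hcomp, hpol, f, fun y => cod y.1,
    cod_continuous.comp continuous_subtype_val, cod_inj.comp Subtype.val_injective,
    ⟨?_, ?_⟩, ?_, ?_, ?_, ?_⟩
  · intro n m h
    exact nod.symm.injective (congrArg Prod.fst (congrArg Subtype.val h))
  · intro a b h
    exact f0_inj hci (congrArg Subtype.val h)
  · intro y
    obtain ⟨a, ha⟩ := f0_surj hc hρ hcu y.2
    exact ⟨a, Subtype.ext ha⟩
  · exact (f0_cont_inl hc hρ).subtype_mk _
  · exact f0_cont_inr.subtype_mk _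
  · -- compact sets
    let KK : (ℕ × ℕ × ℕ) ⊕ ((List ℕ × List ℕ) ⊕ (QQ c ρ × QQ c ρ)) →
        Set (YS (ZF c ρ) (zz c ρ g Wd) × YS (ZF c ρ) (zz c ρ g Wd)) := fun j => match j with
      | .inl t => closure ((fun x => (f (.inl x), f (.inl (g t.1 x)))) ''
          {x | ρ x = t.2.1 ∧ ρ (g t.1 x) = t.2.2})
      | .inr (.inl t) => closure ((fun p : (ℕ → ℕ) × (ℕ → ℕ) =>
          (f (.inr (.inl p.1)), f (.inr (.inl p.2)))) '' AP t.1 t.2)
      | .inr (.inr q) => {(f (.inr (.inr q.1)), f (.inr (.inr q.2)))}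
    have hKKc : ∀ j, IsCompact (KK j) := by
      rintro (t | t | q)
      · exact isClosed_closure.isCompact
      · exact isClosed_closure.isCompact
      · exact isCompact_singleton
    have hne : Nonempty ((ℕ × ℕ × ℕ) ⊕ ((List ℕ × List ℕ) ⊕ (QQ c ρ × QQ c ρ))) :=
      ⟨.inl (0, 0, 0)⟩
    obtain ⟨en, hen⟩ := exists_surjective_nat
      ((ℕ × ℕ × ℕ) ⊕ ((List ℕ × List ℕ) ⊕ (QQ c ρ × QQ c ρ)))
    refine ⟨fun n => KK (en n), fun n => hKKc _, ?_⟩
    apply Set.Subset.antisymm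
    · rintro ⟨y, y'⟩ ⟨a, b, rfl, rfl, hab⟩
      suffices hj : ∃ j, (f a, f b) ∈ KK j by
        obtain ⟨j, hj⟩ := hj
        obtain ⟨n, rfl⟩ := hen j
        exact mem_iUnion.2 ⟨n, hj⟩
      rcases a with x | a
      · rcases b with x' | b
        · rw [Sum.liftRel_inl_inl] at hab
          obtain ⟨n, rfl⟩ := (hgE x x').1 hab
          exact ⟨.inl (n, ρ x, ρ (g n x)), subset_closure ⟨x, ⟨rfl, rfl⟩, rfl⟩⟩
        · exact absurd hab Sum.not_liftRel_inl_inr
      · rcases b with x' | b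
        · exact absurd hab Sum.not_liftRel_inr_inl
        · rw [Sum.liftRel_inr_inr] at hab
          rcases a with α | q <;> rcases b with β | q'
          · obtain ⟨N, hN⟩ := hab
            refine ⟨.inr (.inl (res α N, res β N)), subset_closure ⟨(α, β), ?_, rfl⟩⟩
            refine ⟨by simp, by simp, by simp, ?_⟩
            intro n hn
            simp only [res_length] at hn
            exact hN n hn
          · exact absurd hab (by simp [TW])
          · exact absurd hab (by simp [TW])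
          · exact ⟨.inr (.inr (q, q')), rfl⟩
    · intro p hp
      obtain ⟨n, hn⟩ := mem_iUnion.1 hp
      obtain ⟨y, y'⟩ := p
      generalize en n = j at hn
      rcases j with t | t | q
      · obtain ⟨U, hU1, hU2⟩ := exists_ultra _ _ _ hn
        refine hRR y y' (lim_E hc hρ hcu hg hgi hgE t.1 t.2.1 t.2.2 hU1 y.2 y'.2 ?_ ?_)
        · exact ((continuous_subtype_val.comp continuous_fst).tendsto (y, y')).comp hU2
        · exact ((continuous_subtype_val.comp continuous_snd).tendsto (y, y')).comp hU2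
      · obtain ⟨U, hU1, hU2⟩ := exists_ultra _ _ _ hn
        refine hRR y y' (lim_T hc hρ hcu hg hgi hE hgE hW hS t.1 t.2 hU1 y.2 y'.2 ?_ ?_)
        · exact ((continuous_subtype_val.comp continuous_fst).tendsto (y, y')).comp hU2
        · exact ((continuous_subtype_val.comp continuous_snd).tendsto (y, y')).comp hU2
      · have h1 : (y, y') = (f (.inr (.inr q.1)), f (.inr (.inr q.2))) := hn
        rw [h1]
        exact ⟨_, _, rfl, rfl, Sum.liftRel_inr_inr.2 trivial⟩
  · -- density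
    intro a
    rw [dense_iff_inter_open]
    rintro O hO ⟨y0, hy0⟩
    obtain ⟨O', hO', rfl⟩ := hO
    obtain ⟨u, hu⟩ := pibase (fun w b hb N hN => zz_dense hc hρ w b hb N hN) y0.2 O'
      (hO'.mem_nhds hy0)
    have hfu : ∀ b, (f0 c ρ g Wd b).1 u = true → f b ∈ Subtype.val ⁻¹' O' := fun b hb =>
      hu _ (f0_mem hW b) hb
    rcases a with x | α | q
    · refine ⟨f (.inl (ph ρ g Wd (nod u) x)), hfu _ ?_, _, rfl, ?_⟩
      · show fbr (nod.symm (ρ (ph ρ g Wd (nod u) x))) u = true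
        rw [ph_rho hW, Equiv.symm_apply_apply, fbr_iff]
      · rw [Sum.liftRel_inl_inl]
        unfold ph
        split_ifs
        · exact hE.refl x
        · exact act_E hE g hgE _ _
    · obtain ⟨β, hβ1, hβ2⟩ := exists_prefix u α
      refine ⟨f (.inr (.inl β)), hfu _ ?_, _, rfl, ?_⟩
      · show ibr β u = true
        rw [ibr_iff]; exact hβ1
      · rw [Sum.liftRel_inr_inr]
        exact ⟨u.length, fun n hn => (hβ2 n hn).symm⟩
    · refine ⟨f (.inr (.inr ⟨(u, []), nil_mem_ZF _⟩)), hfu _ ?_, _, rfl, ?_⟩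
      · show fbr u u = true
        rw [fbr_iff]
      · rw [Sum.liftRel_inr_inr]
        trivial

end

end Pool.Agent.Hp6.KS
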