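import Mathlib
import Pool.Agent.H139R3.MF.Top

set_option autoImplicit false

/-! # Zero-dimensional Polish topologies and closed codes in the Baire space -/

namespace Pool.Agent.Hp6.KS

open Set TopologicalSpace Filter Topology

theorem step' {X : Type} [t0 : TopologicalSpace X] [p0 : PolishSpace X]
    [MeasurableSpace X] [b0 : BorelSpace X] (g : ℕ → X → X) (hg : ∀ n, Measurable (g n))
    (ρ : X → ℕ) (hρ : Measurable ρ) (t : TopologicalSpace X) (ht : t ≤ t0)
    (hp : @PolishSpace X t) :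
    ∃ t' : TopologicalSpace X, t' ≤ t ∧ @PolishSpace X t' ∧ (∀ n, @Continuous X X t' t (g n)) ∧
      @Continuous X ℕ t' _ ρ ∧
      ∀ (x : X) (O : Set X), @IsOpen X t O → x ∈ O → ∃ V, @IsClopen X t' V ∧ x ∈ V ∧ V ⊆ O := by
  classical
  have hb : @BorelSpace X t _ := by
    constructor
    rw [b0.measurable_eq]
    exact (MeasureTheory.borel_eq_borel_of_le hp p0 ht).symm
  have h0 : ∃ U : ℕ → Set X, (∀ k, @IsOpen X t (U k)) ∧
      ∀ (x : X) (O : Set X), @IsOpen X t O → x ∈ O → ∃ k, x ∈ U k ∧ U k ⊆ O := by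
    let := t
    have := hp
    obtain ⟨b, hb1, hb0, hb2⟩ := TopologicalSpace.exists_countable_basis X
    by_cases hne : b.Nonempty
    · obtain ⟨U, hU⟩ := hb1.exists_eq_range hne
      refine ⟨U, fun n => hb2.isOpen (hU ▸ ⟨n, rfl⟩), fun x O hO hx => ?_⟩
      obtain ⟨u, hu, hxu, huO⟩ := hb2.exists_subset_of_mem_open hx hO
      rw [hU] at hu
      obtain ⟨n, rfl⟩ := hu
      exact ⟨n, hxu, huO⟩
    · refine ⟨fun _ => ∅, fun _ => isOpen_empty, fun x O hO hx => ?_⟩
      exfalso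
      obtain ⟨u, hu, -, -⟩ := hb2.exists_subset_of_mem_open hx hO
      exact hne ⟨u, hu⟩
  obtain ⟨U, hU1, hU2⟩ := h0
  let h : X → (ℕ → Bool) × ℕ := fun x => (fun k => decide (x ∈ U k), ρ x)
  have hh : Measurable h := by
    refine Measurable.prodMk (measurable_pi_lambda _ fun k => ?_) hρ
    refine measurable_to_bool ?_
    have e1 : (fun x => decide (x ∈ U k)) ⁻¹' {true} = U k := by
      ext x; simp
    rw [e1]
    exact @IsOpen.measurableSet X _ t _ _ (hU1 k)
  obtain ⟨t', h1, h2, h3, h4⟩ := @Pool.Agent.H139R3.MF.step X ((ℕ → Bool) × ℕ) t0 p0 _ b0 g hg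
    _ _ _ _ h hh t ht hp
  refine ⟨t', h1, h2, h3, ?_, ?_⟩
  · exact @Continuous.comp X ((ℕ → Bool) × ℕ) ℕ t' _ _ h Prod.snd continuous_snd h4
  · intro x O hO hx
    obtain ⟨k, hk1, hk2⟩ := hU2 x O hO hx
    refine ⟨U k, ?_, hk1, hk2⟩
    have h5 : @Continuous X Bool t' _ (fun x => decide (x ∈ U k)) :=
      @Continuous.comp X ((ℕ → Bool) × ℕ) Bool t' _ _ h (fun p => p.1 k)
        ((continuous_apply k).comp continuous_fst) h4
    have e1 : (fun x => decide (x ∈ U k)) ⁻¹' {true} = U k := by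
      ext x; simp
    rw [← e1]
    exact @IsClopen.preimage _ _ t' _ _ (isClopen_discrete _) _ h5

/-- A Polish topology can be refined to a zero-dimensional Polish topology for which countably many
Borel self maps and a Borel map to the natural numbers are continuous. -/
theorem exists_zerodim {X : Type} [t0 : TopologicalSpace X] [p0 : PolishSpace X]
    [MeasurableSpace X] [b0 : BorelSpace X] (g : ℕ → X → X) (hg : ∀ n, Measurable (g n))
    (ρ : X → ℕ) (hρ : Measurable ρ) :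
    ∃ t : TopologicalSpace X, @PolishSpace X t ∧ @BorelSpace X t _ ∧
      (∀ n, @Continuous X X t t (g n)) ∧ @Continuous X ℕ t _ ρ ∧
      ∀ (x : X) (O : Set X), @IsOpen X t O → x ∈ O → ∃ V, @IsClopen X t V ∧ x ∈ V ∧ V ⊆ O := by
  choose F hF1 hF2 hF3 hF4 hF5 using @step' X t0 p0 _ b0 g hg ρ hρ
  let T : ℕ → {t : TopologicalSpace X // t ≤ t0 ∧ @PolishSpace X t} := fun n =>
    Nat.rec ⟨t0, le_rfl, p0⟩ (fun _ s => ⟨F s.1 s.2.1 s.2.2, (hF1 _ _ _).trans s.2.1,
      hF2 _ _ _⟩) n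
  have T0 : (T 0).1 = t0 := rfl
  have TS : ∀ n, (T (n + 1)).1 = F (T n).1 (T n).2.1 (T n).2.2 := fun n => rfl
  have hanti : Antitone (fun n => (T n).1) := by
    refine antitone_nat_of_succ_le fun n => ?_
    show (T (n + 1)).1 ≤ (T n).1
    rw [TS]
    exact hF1 _ _ _
  have hle : (⨅ n, (T n).1) ≤ t0 := iInf_le_of_le 0 le_rfl
  have hp : @PolishSpace X (⨅ n, (T n).1) := by
    refine PolishSpace.iInf ⟨0, fun i => (T i).2.1⟩ (fun i => (T i).2.2)
  refine ⟨⨅ n, (T n).1, hp, ?_, ?_, ?_, ?_⟩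
  · refine @BorelSpace.mk X (⨅ n, (T n).1) _ ?_
    exact b0.measurable_eq.trans (MeasureTheory.borel_eq_borel_of_le hp p0 hle).symm
  · intro n
    rw [continuous_iInf_rng]
    intro k
    have e1 : @Continuous X X (T (k + 1)).1 (T k).1 (g n) := by
      rw [TS]
      exact hF3 _ _ _ n
    exact continuous_iInf_dom (i := k + 1) e1
  · have e1 : @Continuous X ℕ (T (0 + 1)).1 _ ρ := by
      rw [TS]
      exact hF4 _ _ _
    exact continuous_iInf_dom (i := 0 + 1) e1
  · intro x O hO hx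
    have h1 : O ∈ @nhds X (⨅ n, (T n).1) x := @IsOpen.mem_nhds X (⨅ n, (T n).1) x O hO hx
    rw [nhds_iInf] at h1
    have hdir : Directed (· ≥ ·) (fun n => @nhds X (T n).1 x) := by
      refine Antitone.directed_ge ?_
      intro m n hmn
      exact nhds_mono (hanti hmn)
    rw [mem_iInf_of_directed hdir] at h1
    obtain ⟨n, hn⟩ := h1
    obtain ⟨O', hO'1, hO'2, hO'3⟩ := (@mem_nhds_iff X (T n).1 x O).1 hn
    obtain ⟨V, hV1, hV2, hV3⟩ := hF5 (T n).1 (T n).2.1 (T n).2.2 x O' hO'2 hO'3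
    rw [← TS] at hV1
    refine ⟨V, ?_, hV2, hV3.trans hO'1⟩
    have hle' : (⨅ n, (T n).1) ≤ (T (n + 1)).1 := iInf_le (fun n => (T n).1) (n + 1)
    exact ⟨@IsClosed.mono X (⨅ n, (T n).1) (T (n + 1)).1 V hV1.1 hle',
      @IsOpen.mono X (⨅ n, (T n).1) (T (n + 1)).1 V hV1.2 hle'⟩

/-- a zero-dimensional Polish space is coded by a closed set of sequences -/
theorem exists_code {X : Type} [TopologicalSpace X] [PolishSpace X] [Nonempty X]
    (hz : ∀ (x : X) (O : Set X), IsOpen O → x ∈ O → ∃ V, IsClopen V ∧ x ∈ V ∧ V ⊆ O) :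
    ∃ c : X → ℕ → ℕ, Continuous c ∧ Function.Injective c ∧
      ∀ U : Ultrafilter X, (∀ n, ∃ a, {x | c x n = a} ∈ U) → ∃ x, (U : Filter X) ≤ 𝓝 x := by
  classical
  let := upgradeIsCompletelyMetrizable X
  have h1 : ∀ (n : ℕ) (x : X), ∃ V, IsClopen V ∧ x ∈ V ∧ V ⊆ Metric.ball x ((1 / 2) ^ (n + 1)) :=
    fun n x => hz x _ Metric.isOpen_ball (Metric.mem_ball_self (by positivity))
  choose V hV1 hV2 hV3 using h1
  have h2 : ∀ n, ∃ p : ℕ → X, ∀ x, ∃ k, x ∈ V n (p k) := by
    intro n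
    obtain ⟨S, hS1, hS2⟩ := TopologicalSpace.countable_cover_nhds
      (f := V n) (fun x => (hV1 n x).2.mem_nhds (hV2 n x))
    have hSne : S.Nonempty := by
      by_contra hcon
      rw [not_nonempty_iff_eq_empty] at hcon
      obtain ⟨x⟩ := (inferInstance : Nonempty X)
      have : x ∈ (⋃ y ∈ S, V n y) := by rw [hS2]; trivial
      simp [hcon] at this
    obtain ⟨p, hp⟩ := hS1.exists_eq_range hSne
    refine ⟨p, fun x => ?_⟩
    have : x ∈ (⋃ y ∈ S, V n y) := by rw [hS2]; trivial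
    simp only [mem_iUnion] at this
    obtain ⟨y, hy, hx⟩ := this
    rw [hp] at hy
    obtain ⟨k, rfl⟩ := hy
    exact ⟨k, hx⟩
  choose p hp using h2
  let c : X → ℕ → ℕ := fun x n => Nat.find (hp n x)
  have hc : ∀ x n, x ∈ V n (p n (c x n)) := fun x n => Nat.find_spec (hp n x)
  have hd : ∀ x y n, c x n = c y n → dist x y < (1 / 2) ^ n := by
    intro x y n h
    have h3 := hV3 n _ (hc x n)
    have h4 := hV3 n _ (hc y n)
    rw [← h] at h4
    rw [Metric.mem_ball] at h3 h4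
    calc dist x y ≤ dist x (p n (c x n)) + dist y (p n (c x n)) := dist_triangle_right _ _ _
      _ < (1 / 2) ^ (n + 1) + (1 / 2) ^ (n + 1) := add_lt_add h3 h4
      _ = (1 / 2) ^ n := by ring
  refine ⟨c, ?_, ?_, ?_⟩
  · refine continuous_pi fun n => ?_
    rw [continuous_discrete_rng]
    intro k
    have e1 : (fun x => c x n) ⁻¹' {k} = V n (p n k) ∩ ⋂ j : Fin k, (V n (p n j))ᶜ := by
      ext x
      simp only [mem_preimage, mem_singleton_iff, mem_inter_iff, mem_iInter, mem_compl_iff]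
      constructor
      · intro h
        refine ⟨h ▸ hc x n, fun j => ?_⟩
        exact Nat.find_min (hp n x) (by rw [show Nat.find (hp n x) = k from h]; exact j.2)
      · rintro ⟨h3, h4⟩
        refine (Nat.find_eq_iff (hp n x)).2 ⟨h3, fun j hj => h4 ⟨j, hj⟩⟩
    rw [e1]
    exact (hV1 n _).2.inter (isOpen_iInter_of_finite fun j => (hV1 n _).1.isOpen_compl)
  · intro x y h
    by_contra hne
    have h3 : 0 < dist x y := dist_pos.2 hne
    obtain ⟨n, hn⟩ := exists_pow_lt_of_lt_one h3 (show (1 / 2 : ℝ) < 1 by norm_num)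
    have := hd x y n (congrFun h n)
    linarith
  · intro U hU
    have hC : Cauchy (U : Filter X) := by
      rw [Metric.cauchy_iff]
      refine ⟨U.neBot, fun ε hε => ?_⟩
      obtain ⟨n, hn⟩ := exists_pow_lt_of_lt_one hε (show (1 / 2 : ℝ) < 1 by norm_num)
      obtain ⟨a, ha⟩ := hU n
      refine ⟨_, ha, fun x hx y hy => (hd x y n ?_).trans hn⟩
      exact (show c x n = a from hx).trans (show c y n = a from hy).symm
    exact CompleteSpace.complete hC

end Pool.Agent.Hp6.KS
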