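import Mathlib
import Pool.Agent.H139R3.FM
import Pool.Agent.TH286.CR.GE
import Pool.Agent.TH635.CR_ABS
import Pool.Agent.TH722.CR.Core
import Pool.Agent.H812R3.CantorChar
import Pool.Agent.Hp6.KS.Layers
import Pool.Agent.Hp6.KS.Zero
import Pool.Agent.Hp6.KS.Main2

set_option autoImplicit false

/-! # Minimal `K_σ` realizations of aperiodic non-smooth countable Borel equivalence relations -/

namespace Pool.Agent.Hp6.KS

open Set TopologicalSpace MeasureTheory

theorem sb_sum (A B : Type) [MeasurableSpace A] [StandardBorelSpace A] [MeasurableSpace B]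
    [StandardBorelSpace B] : StandardBorelSpace (A ⊕ B) := by
  let := upgradeStandardBorel A
  let := upgradeStandardBorel B
  have := Pool.Agent.TH722.CR.borelSpace_sum A B
  have h1 : PolishSpace (A ⊕ B) := { }
  infer_instance

/-- a countable relation which is the kernel of a Borel function has a Borel transversal -/
theorem exists_transversal {X : Type} [MeasurableSpace X] [StandardBorelSpace X]
    (s : ℕ → X → X) (hs : ∀ n, Measurable (s n)) (E : X → X → Prop)
    (hE : Equivalence E) (hsE : ∀ x y, E x y ↔ ∃ n, s n x = y)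
    (f : X → ℝ) (hf : Measurable f) (hfE : ∀ x y, E x y ↔ f x = f y) :
    ∃ T : Set X, MeasurableSet T ∧ ∀ x, ∃! y, y ∈ T ∧ E x y := by
  classical
  let := upgradeStandardBorel X
  have hR : MeasurableSet {p : ℝ × X | f p.2 = p.1} :=
    measurableSet_eq_fun (hf.comp measurable_snd) measurable_fst
  obtain ⟨G, hG1, hG2, hG3⟩ := Pool.Agent.Helper281.LN.lusin_novikov hR (by
    intro r
    by_cases h : ∃ x, f x = r
    · obtain ⟨x, hx⟩ := h
      refine (countable_range (fun n => s n x)).mono ?_
      intro y hy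
      have h1 : f y = r := hy
      obtain ⟨n, hn⟩ := (hsE x y).1 ((hfE x y).2 (hx.trans h1.symm))
      exact ⟨n, hn⟩
    · refine Set.countable_empty.mono ?_
      intro y hy
      exact absurd ⟨y, hy⟩ h)
  let D : ℕ → Set X := fun n => {x | (f x, x) ∈ G n}
  have hD : ∀ n, MeasurableSet (D n) := fun n => (hf.prodMk measurable_id) (hG1 n)
  have hDu : ∀ n x y, x ∈ D n → y ∈ D n → E x y → x = y := by
    intro n x y hx hy hxy
    refine hG3 n (f x) x y hx ?_
    rw [(hfE x y).1 hxy]
    exact hy
  have hDc : ∀ x, ∃ n, x ∈ D n := by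
    intro x
    have h1 : (f x, x) ∈ ⋃ n, G n := by
      rw [hG2]
      exact (rfl : f x = f x)
    obtain ⟨n, hn⟩ := mem_iUnion.1 h1
    exact ⟨n, hn⟩
  let S : ℕ → Set X := fun n => {x | ∃ k, s k x ∈ D n}
  have hS : ∀ n, MeasurableSet (S n) := by
    intro n
    have e1 : S n = ⋃ k, s k ⁻¹' D n := by
      ext x
      simp only [S, mem_iUnion, mem_preimage]
      rfl
    rw [e1]
    exact MeasurableSet.iUnion fun k => hs k (hD n)
  have hSD : ∀ n x y, E x y → y ∈ D n → x ∈ S n := by
    intro n x y hxy hy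
    obtain ⟨k, hk⟩ := (hsE x y).1 hxy
    exact ⟨k, by rw [hk]; exact hy⟩
  refine ⟨⋃ n, (D n \ ⋃ m : Fin n, S m), MeasurableSet.iUnion fun n =>
    (hD n).diff (MeasurableSet.iUnion fun m => hS m), fun x => ?_⟩
  have hex : ∃ n, ∃ y, E x y ∧ y ∈ D n := by
    obtain ⟨n, hn⟩ := hDc x
    exact ⟨n, x, hE.refl x, hn⟩
  obtain ⟨y, hy1, hy2⟩ := Nat.find_spec hex
  refine ⟨y, ⟨mem_iUnion.2 ⟨Nat.find hex, hy2, ?_⟩, hy1⟩, ?_⟩
  · intro h
    obtain ⟨m, hm⟩ := mem_iUnion.1 h
    obtain ⟨k, hk⟩ := hm
    exact Nat.find_min hex m.2 ⟨s k y, hE.trans hy1 ((hsE _ _).2 ⟨k, rfl⟩), hk⟩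
  · rintro z ⟨hz1, hz2⟩
    obtain ⟨n, hn1, hn2⟩ := mem_iUnion.1 hz1
    have h1 : n = Nat.find hex := by
      refine le_antisymm ?_ (Nat.find_min' hex ⟨z, hz2, hn1⟩)
      by_contra hlt
      apply hn2
      refine mem_iUnion.2 ⟨⟨Nat.find hex, not_le.1 hlt⟩, ?_⟩
      exact hSD _ z y (hE.trans (hE.symm hz2) hy1) hy2
    subst h1
    exact hDu _ _ _ hn1 hy2 (hE.trans (hE.symm hz2) hy1)

/-- the case of a space in the lowest universe -/
theorem final0 {X : Type} [MeasurableSpace X] [StandardBorelSpace X]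
    (E : X → X → Prop) (hE : Equivalence E) (hm : MeasurableSet {p : X × X | E p.1 p.2})
    (hc : ∀ x, {y | E x y}.Countable) (ha : ∀ x, {y | E x y}.Infinite)
    (hns : ¬ ∃ T : Set X, MeasurableSet T ∧ ∀ x, ∃! y, y ∈ T ∧ E x y) :
    ∃ f : X ≃ᵐ (ℕ → Bool),
      (∃ K : ℕ → Set ((ℕ → Bool) × (ℕ → Bool)), (∀ n, IsCompact (K n)) ∧
        {p : (ℕ → Bool) × (ℕ → Bool) | E (f.symm p.1) (f.symm p.2)} = ⋃ n, K n) ∧
      ∀ y, Dense {z | E (f.symm y) (f.symm z)} := by
  classical
  have hXne : Nonempty X := by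
    by_contra hcon
    rw [not_nonempty_iff] at hcon
    exact hns ⟨∅, MeasurableSet.empty, fun x => hcon.elim x⟩
  obtain ⟨s, hsm, hsi, hsE⟩ := Pool.Agent.H139R3.FM.feldman_moore E hE hm hc
  obtain ⟨j, hj1, hj2, hj3⟩ := Pool.Agent.TH286.CR.glimm_effros s hsm hsi E hE hsE (by
    rintro ⟨f, hf, hfE⟩
    exact hns (exists_transversal s hsm E hE hsE f hf hfE))
  obtain ⟨ρ, g, hρ, hg, hgi, hgE, hS⟩ := exists_layers s hsm hsi E hE hsE ha
  choose S hS1 hS2 using hS
  choose Wd hW1 hW2 using hS2
  -- the topology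
  let tp0 := upgradeStandardBorel X
  obtain ⟨t, hp, hb, hgc, hρc, hz⟩ := exists_zerodim g hg ρ hρ
  clear tp0
  have := hp
  have := hb
  obtain ⟨c, hcc, hci, hcu⟩ := exists_code hz
  obtain ⟨Q, hQ, i, hi, Y, iY1, iY2, iY3, f, e, he1, he2, hf, hf1, hf2, ⟨K, hK1, hK2⟩, hd⟩ :=
    main (E := E) hcc hci hρc hcu hgc hgi hE hgE hW2 (fun i => ⟨S i, hS1 i, hW1 i⟩)
  -- the measurable structures
  let mQ : MeasurableSpace Q := ⊤
  have sQ : StandardBorelSpace Q := inferInstance
  let mY : MeasurableSpace Y := borel Y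
  have bY : BorelSpace Y := ⟨rfl⟩
  have sW : StandardBorelSpace ((ℕ → ℕ) ⊕ Q) := sb_sum _ _
  have sXW : StandardBorelSpace (X ⊕ ((ℕ → ℕ) ⊕ Q)) := sb_sum _ _
  have hfm : Measurable f := by
    refine measurable_fun_sum hf1.measurable (measurable_fun_sum hf2.measurable ?_)
    exact measurable_from_top
  have hfe : MeasurableEmbedding f := hfm.measurableEmbedding hf.1
  -- absorption
  obtain ⟨q0, hq0⟩ := exists_injective_nat Q
  obtain ⟨h, hh⟩ := Pool.Agent.TH635.CRAbs.absorb (W := (ℕ → ℕ) ⊕ Q) s hsm hsi E hE hsE j hj1 hj2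
    hj3 TW
    (fun w n => match w with
      | .inl α => α n + 1
      | .inr q => if n = 0 then q0 q else 0)
    (by
      refine measurable_fun_sum ?_ measurable_from_top
      refine measurable_pi_lambda _ fun n => ?_
      exact (measurable_from_top (f := fun k : ℕ => k + 1)).comp (measurable_pi_apply n))
    (by
      rintro (α | q) (β | q') hw
      · congr 1
        funext n
        have := congrFun hw n
        simpa using this
      · have := congrFun hw 1
        simp at this
      · have := congrFun hw 1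
        simp at this
      · have := congrFun hw 0
        simp only [if_true] at this
        rw [hq0 this])
    (by
      rintro (α | q) (β | q')
      · simp only [TW, Nat.add_right_cancel_iff]
      · simp only [TW, false_iff]
        rintro ⟨N, hN⟩
        have := hN (N + 1) (by omega)
        simp at this
      · simp only [TW, false_iff]
        rintro ⟨N, hN⟩
        have := hN (N + 1) (by omega)
        simp at this
      · simp only [TW, true_iff]
        refine ⟨1, fun n hn => ?_⟩
        rw [if_neg (by omega), if_neg (by omega)])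
    (fun w n => match w with
      | .inl α => .inl (Function.update α 0 (Nat.pair (α 0) n))
      | .inr q => .inr (i (Nat.pair (q0 q) n)))
    (by
      intro n
      refine measurable_fun_sum ?_ measurable_from_top
      refine measurable_inl.comp ?_
      refine measurable_pi_lambda _ fun k => ?_
      by_cases hk : k = 0
      · subst hk
        simp only [Function.update_self]
        exact (measurable_from_top (f := fun m : ℕ => Nat.pair m n)).comp (measurable_pi_apply 0)
      · simp only [Function.update_of_ne hk]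
        exact measurable_pi_apply k)
    (by
      rintro (α | q) n
      · refine ⟨1, fun k hk => ?_⟩
        rw [Function.update_of_ne (by omega)]
      · trivial)
    (by
      rintro (α | q) (β | q') n n' hw
      · have h1 := Sum.inl_injective hw
        have h2 := congrFun h1 0
        simp only [Function.update_self] at h2
        rw [Nat.pair_eq_pair] at h2
        refine ⟨?_, h2.2⟩
        congr 1
        funext k
        by_cases hk : k = 0
        · rw [hk]; exact h2.1
        · have h3 := congrFun h1 k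
          rwa [Function.update_of_ne hk, Function.update_of_ne hk] at h3
      · exact absurd hw (by simp)
      · exact absurd hw (by simp)
      · have h1 := hi (Sum.inr_injective hw)
        rw [Nat.pair_eq_pair] at h1
        exact ⟨by rw [hq0 h1.1], h1.2⟩)
  -- the Cantor space
  have hYne : Nonempty Y := ⟨f (.inr (.inr (i 0)))⟩
  have hperf : ∀ z : Y, ∀ U : Set Y, IsOpen U → z ∈ U → ∃ y ∈ U, y ≠ z := by
    intro z U hU hz
    obtain ⟨a, ha⟩ := hf.2 z
    obtain ⟨x0⟩ := hXne
    rcases a with x | w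
    · obtain ⟨y, hyU, b, hb, hab⟩ := dense_iff_inter_open.1 (hd (.inr (.inr (i 0)))) U hU ⟨z, hz⟩
      refine ⟨y, hyU, ?_⟩
      rintro rfl
      have h1 := hf.1 (hb.trans ha.symm)
      rw [h1] at hab
      exact absurd hab Sum.not_liftRel_inr_inl
    · obtain ⟨y, hyU, b, hb, hab⟩ := dense_iff_inter_open.1 (hd (.inl x0)) U hU ⟨z, hz⟩
      refine ⟨y, hyU, ?_⟩
      rintro rfl
      have h1 := hf.1 (hb.trans ha.symm)
      rw [h1] at hab
      exact absurd hab Sum.not_liftRel_inl_inr
  obtain ⟨κ⟩ := Pool.Agent.H812R3.CantorChar.cantor_char e he1 he2 hperf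
  let eqv : (X ⊕ ((ℕ → ℕ) ⊕ Q)) ≃ Y := Equiv.ofBijective f hf
  let fe : (X ⊕ ((ℕ → ℕ) ⊕ Q)) ≃ᵐ Y :=
    { toEquiv := eqv
      measurable_toFun := hfm
      measurable_invFun := by
        intro A hA
        have e1 : eqv.symm ⁻¹' A = f '' A := by
          ext y
          constructor
          · intro hy
            exact ⟨eqv.symm y, hy, eqv.apply_symm_apply y⟩
          · rintro ⟨a, ha, rfl⟩
            show eqv.symm (f a) ∈ A
            rw [show eqv.symm (f a) = a from eqv.symm_apply_apply a]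
            exact ha
        show MeasurableSet (eqv.symm ⁻¹' A)
        rw [e1]
        exact hfe.measurableSet_image.2 hA }
  have hfe1 : ∀ a, fe a = f a := fun a => rfl
  let F : X ≃ᵐ (ℕ → Bool) := (h.symm.trans fe).trans κ.toMeasurableEquiv
  have hF : ∀ a, F.symm (κ (f a)) = h a := by
    intro a
    apply F.injective
    rw [F.apply_symm_apply]
    show κ (f a) = κ (fe (h.symm (h a)))
    rw [h.symm_apply_apply]
    rfl
  have hFr : ∀ a b, E (F.symm (κ (f a))) (F.symm (κ (f b))) ↔ Sum.LiftRel E TW a b := by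
    intro a b
    rw [hF, hF]
    exact (hh a b).symm
  have hsurj : ∀ y : ℕ → Bool, ∃ a, κ (f a) = y := by
    intro y
    obtain ⟨a, ha⟩ := hf.2 (κ.symm y)
    exact ⟨a, by rw [ha, κ.apply_symm_apply]⟩
  refine ⟨F, ⟨fun n => Prod.map κ κ '' K n, fun n =>
    (hK1 n).image (κ.continuous.prodMap κ.continuous), ?_⟩, ?_⟩
  · rw [← image_iUnion, ← hK2]
    ext ⟨y, y'⟩
    obtain ⟨a, rfl⟩ := hsurj y
    obtain ⟨b, rfl⟩ := hsurj y'
    constructor
    · intro hy
      exact ⟨(f a, f b), ⟨a, b, rfl, rfl, (hFr a b).1 hy⟩, rfl⟩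
    · rintro ⟨⟨z, z'⟩, ⟨a', b', ha', hb', hab⟩, hz⟩
      simp only at ha' hb'
      rw [← ha', ← hb'] at hz
      have h1 := κ.injective (congrArg Prod.fst hz)
      have h2 := κ.injective (congrArg Prod.snd hz)
      have h3 := hf.1 h1
      have h4 := hf.1 h2
      rw [h3, h4] at hab
      exact (hFr a b).2 hab
  · intro y
    obtain ⟨a, rfl⟩ := hsurj y
    rw [dense_iff_inter_open]
    rintro O hO ⟨z, hz⟩
    obtain ⟨y', hy', b, hb, hab⟩ := dense_iff_inter_open.1 (hd a) (κ ⁻¹' O)
      (hO.preimage κ.continuous) ⟨κ.symm z, by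
        show κ (κ.symm z) ∈ O
        rw [κ.apply_symm_apply]
        exact hz⟩
    refine ⟨κ y', hy', ?_⟩
    rw [← hb]
    exact (hFr a b).2 hab

end Pool.Agent.Hp6.KS
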